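import Mathlib

/-! Lower bound for the number of primes in `(n, 2n]`. -/

namespace Pool.Agent.helper79.DyadicPrimes

open Nat Finset

/-- The primes in `(n, 2n]`. -/
def dy (n : ℕ) : Finset ℕ := {p ∈ Finset.Ioc n (2 * n) | p.Prime}

theorem centralBinom_le (n : ℕ) (n_large : 2 < n) :
    centralBinom n ≤ (2 * n) ^ sqrt (2 * n) * 4 ^ (2 * n / 3) * (2 * n) ^ (dy n).card := by
  have n_pos : 0 < n := (Nat.zero_le _).trans_lt n_large
  have n2_pos : 1 ≤ 2 * n := mul_pos (zero_lt_two' ℕ) n_pos
  let S := {p ∈ Finset.range (2 * n / 3 + 1) | Nat.Prime p}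
  let f x := x ^ n.centralBinom.factorization x
  have h0 : ∏ x ∈ S, f x = ∏ x ∈ Finset.range (2 * n / 3 + 1), f x := by
    refine Finset.prod_filter_of_ne fun p _ h => ?_
    contrapose h; dsimp only [f]
    rw [factorization_eq_zero_of_not_prime n.centralBinom h, _root_.pow_zero]
  have hsplit : centralBinom n = (∏ x ∈ Finset.range (2 * n / 3 + 1), f x) * ∏ x ∈ dy n, f x := by
    have h1 := n.prod_pow_factorization_centralBinom
    rw [← h1]
    rw [← Finset.prod_union]
    · symm
      apply Finset.prod_subset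
      · intro x hx
        simp only [Finset.mem_union, Finset.mem_range, dy, Finset.mem_filter,
          Finset.mem_Ioc] at hx ⊢
        rcases hx with hx | hx
        · omega
        · omega
      · intro x hx hx2
        simp only [Finset.mem_union, Finset.mem_range, dy, Finset.mem_filter,
          Finset.mem_Ioc, not_or, not_and] at hx hx2
        obtain ⟨h3, h4⟩ := hx2
        by_cases hp : x.Prime
        · have hxn : x ≤ n := by
            by_contra hcon
            exact h4 ⟨by omega, by omega⟩ hp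
          have h3' : 2 * n < 3 * x := by omega
          show x ^ n.centralBinom.factorization x = 1
          rw [factorization_centralBinom_of_two_mul_self_lt_three_mul n_large hxn h3',
            Nat.pow_zero]
        · show x ^ n.centralBinom.factorization x = 1
          rw [factorization_eq_zero_of_not_prime n.centralBinom hp, Nat.pow_zero]
    · rw [Finset.disjoint_left]
      intro x hx hx2
      simp only [Finset.mem_range, dy, Finset.mem_filter, Finset.mem_Ioc] at hx hx2
      omega
  rw [hsplit, ← h0]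
  apply Nat.mul_le_mul
  · rw [← Finset.prod_filter_mul_prod_filter_not S (· ≤ sqrt (2 * n))]
    apply mul_le_mul'
    · refine (Finset.prod_le_prod' fun p _ => (?_ : f p ≤ 2 * n)).trans ?_
      · exact pow_factorization_choose_le (mul_pos two_pos n_pos)
      have : (Finset.Icc 1 (sqrt (2 * n))).card = sqrt (2 * n) := by
        rw [card_Icc, Nat.add_sub_cancel]
      rw [Finset.prod_const]
      refine pow_right_mono₀ n2_pos ((Finset.card_le_card fun x hx => ?_).trans this.le)
      obtain ⟨h1, h2⟩ := Finset.mem_filter.1 hx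
      exact Finset.mem_Icc.mpr ⟨(Finset.mem_filter.1 h1).2.one_lt.le, h2⟩
    · refine le_trans ?_ (primorial_le_four_pow (2 * n / 3))
      refine (Finset.prod_le_prod' fun p hp => (?_ : f p ≤ p)).trans ?_
      · obtain ⟨h1, h2⟩ := Finset.mem_filter.1 hp
        refine (pow_right_mono₀ (Finset.mem_filter.1 h1).2.one_lt.le ?_).trans (pow_one p).le
        exact Nat.factorization_choose_le_one (sqrt_lt'.mp <| not_le.1 h2)
      refine Finset.prod_le_prod_of_subset_of_one_le' (Finset.filter_subset _ _) ?_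
      exact fun p hp _ => (Finset.mem_filter.1 hp).2.one_lt.le
  · refine (Finset.prod_le_prod' fun p _ => (?_ : f p ≤ 2 * n)).trans ?_
    · exact pow_factorization_choose_le (mul_pos two_pos n_pos)
    · rw [Finset.prod_const]

theorem log_ineq {n : ℕ} (hn : 100000000 ≤ n) :
    Real.log n + Real.sqrt (2 * n) * Real.log (2 * n) ≤ (n / 6 : ℝ) * Real.log 4 := by
  have hnR : (100000000 : ℝ) ≤ n := by exact_mod_cast hn
  have hpos : (0 : ℝ) < 2 * n := by linarith
  set y : ℝ := (2 * n : ℝ) ^ (1 / 4 : ℝ) with hy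
  have hy0 : 0 < y := Real.rpow_pos_of_pos hpos _
  have hy4 : y ^ 4 = 2 * n := by
    rw [hy, ← Real.rpow_natCast, ← Real.rpow_mul hpos.le]
    norm_num
  have hsq : Real.sqrt (2 * n) = y ^ 2 := by
    rw [← hy4, show y ^ 4 = (y ^ 2) ^ 2 by ring]
    exact Real.sqrt_sq (by positivity)
  have hlog : Real.log (2 * n) ≤ 4 * y := by
    have := Real.log_le_rpow_div hpos.le (show (0 : ℝ) < 1 / 4 by norm_num)
    rw [← hy] at this
    linarith
  have hlog2 : Real.log n ≤ Real.log (2 * n) := Real.log_le_log (by linarith) (by linarith)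
  have hy70 : 100 ≤ y := by
    by_contra hcon
    push_neg at hcon
    have : y ^ 4 < 100 ^ 4 := by gcongr
    rw [hy4] at this
    norm_num at this
    linarith
  have hl4 : (1 : ℝ) ≤ Real.log 4 := by
    rw [show (4 : ℝ) = 2 ^ 2 by norm_num, Real.log_pow]
    have := Real.log_two_gt_d9
    push_cast
    linarith
  rw [hsq]
  have h1 : Real.log n + y ^ 2 * Real.log (2 * n) ≤ 8 * y ^ 3 := by
    have h2 : y ^ 2 * Real.log (2 * n) ≤ y ^ 2 * (4 * y) := by gcongr
    have h3 : y ≤ y ^ 3 := by
      have : (1 : ℝ) ≤ y ^ 2 := by nlinarith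
      nlinarith
    nlinarith
  have h4 : (n / 6 : ℝ) * Real.log 4 ≥ y ^ 4 / 12 := by
    rw [hy4]
    have : (n / 6 : ℝ) * Real.log 4 ≥ (n / 6 : ℝ) * 1 := by gcongr
    linarith
  have h5 : 8 * y ^ 3 ≤ y ^ 4 / 12 := by
    have : 0 < y ^ 3 := by positivity
    nlinarith
  linarith

theorem card_dy_ge {n : ℕ} (hn : 100000000 ≤ n) :
    (n : ℝ) / (8 * Real.log n) ≤ (dy n).card := by
  have hnR : (100000000 : ℝ) ≤ n := by exact_mod_cast hn
  have hpos : (0 : ℝ) < 2 * n := by linarith
  have h1 : 4 ^ n < n * n.centralBinom := Nat.four_pow_lt_mul_centralBinom n (by omega)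
  have h2 := centralBinom_le n (by omega)
  have h3 : 4 ^ n < n * ((2 * n) ^ sqrt (2 * n) * 4 ^ (2 * n / 3) * (2 * n) ^ (dy n).card) :=
    lt_of_lt_of_le h1 (Nat.mul_le_mul_left _ h2)
  have h3R : (4 : ℝ) ^ n <
      n * ((2 * n) ^ sqrt (2 * n) * 4 ^ (2 * n / 3) * (2 * n) ^ (dy n).card) := by
    exact_mod_cast h3
  have hl4 : (0 : ℝ) < Real.log 4 := Real.log_pos (by norm_num)
  have hl2n : 0 < Real.log (2 * n) := Real.log_pos (by linarith)
  have hln : 0 < Real.log n := Real.log_pos (by linarith)
  have h4 := Real.log_lt_log (by positivity) h3R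
  rw [Real.log_pow, Real.log_mul (by positivity) (by positivity),
    Real.log_mul (by positivity) (by positivity), Real.log_mul (by positivity) (by positivity),
    Real.log_pow, Real.log_pow, Real.log_pow] at h4
  have h5 : ((sqrt (2 * n) : ℕ) : ℝ) * Real.log (2 * n) ≤ Real.sqrt (2 * n) * Real.log (2 * n) := by
    apply mul_le_mul_of_nonneg_right _ hl2n.le
    have := @Real.nat_sqrt_le_real_sqrt (2 * n)
    push_cast at this
    exact this
  have h6 : ((2 * n / 3 : ℕ) : ℝ) * Real.log 4 ≤ (2 * n / 3 : ℝ) * Real.log 4 := by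
    apply mul_le_mul_of_nonneg_right _ hl4.le
    have : ((2 * n / 3 : ℕ) : ℝ) ≤ ((2 * n : ℕ) : ℝ) / (3 : ℕ) := Nat.cast_div_le
    push_cast at this
    exact this
  have h7 := log_ineq hn
  have h8 : (n / 6 : ℝ) * Real.log 4 ≤ (dy n).card * Real.log (2 * n) := by
    nlinarith
  have h9 : Real.log (2 * n) ≤ (3 / 2) * Real.log n := by
    rw [Real.log_mul (by norm_num) (by positivity)]
    have h10 : Real.log 4 ≤ Real.log n := Real.log_le_log (by norm_num) (by linarith)
    rw [show (4 : ℝ) = 2 ^ 2 by norm_num, Real.log_pow] at h10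
    push_cast at h10
    linarith
  have h11 : (1.38 : ℝ) ≤ Real.log 4 := by
    rw [show (4 : ℝ) = 2 ^ 2 by norm_num, Real.log_pow]
    have := Real.log_two_gt_d9
    push_cast
    linarith
  rw [div_le_iff₀ (by positivity)]
  have h12 : (dy n).card * Real.log (2 * n) ≤ (dy n).card * ((3 / 2) * Real.log n) := by
    gcongr
  have h13 : (n / 6 : ℝ) * 1.38 ≤ (n / 6 : ℝ) * Real.log 4 := by gcongr
  nlinarith

end Pool.Agent.helper79.DyadicPrimes
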