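import Mathlib

set_option autoImplicit false

open Finset

namespace Pool.Agent.helper79.Bh

/-- B_h-set -/
def IsBh (h : ℕ) (A : Set ℕ) : Prop :=
  ∀ s t : Multiset ℕ, Multiset.card s = h → Multiset.card t = h →
    (∀ x ∈ s, x ∈ A) → (∀ x ∈ t, x ∈ A) → s.sum = t.sum → s = t

open Classical in
noncomputable def F (A : Set ℕ) (u v : ℝ) : Finset ℕ :=
  (Finset.range (⌊v⌋₊ + 1)).filter (fun n => n ∈ A ∧ u < (n:ℝ) ∧ (n:ℝ) ≤ v)

lemma mem_F {A : Set ℕ} {u v : ℝ} {n : ℕ} :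
    n ∈ F A u v ↔ n ∈ A ∧ u < (n:ℝ) ∧ (n:ℝ) ≤ v := by
  classical
  unfold F
  simp only [Finset.mem_filter, Finset.mem_range]
  constructor
  · exact fun h => h.2
  · intro h
    refine ⟨?_, h⟩
    have := Nat.le_floor h.2.2
    omega

lemma ncard_eq (A : Set ℕ) (u v : ℝ) :
    (A ∩ {n : ℕ | u < (n:ℝ) ∧ (n:ℝ) ≤ v}).ncard = (F A u v).card := by
  have : (A ∩ {n : ℕ | u < (n:ℝ) ∧ (n:ℝ) ≤ v}) = ↑(F A u v) := by
    ext n; simp [mem_F]
  rw [this, Set.ncard_coe_finset]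

lemma card_add_le (A : Set ℕ) {u v w : ℝ} (huv : u ≤ v) (hvw : v ≤ w) :
    (F A u v).card + (F A v w).card ≤ (F A u w).card := by
  classical
  rw [← Finset.card_union_of_disjoint]
  · apply Finset.card_le_card
    intro n hn
    rw [Finset.mem_union, mem_F, mem_F] at hn
    rw [mem_F]
    rcases hn with h | h
    · exact ⟨h.1, h.2.1, h.2.2.trans hvw⟩
    · exact ⟨h.1, lt_of_le_of_lt huv h.2.1, h.2.2⟩
  · rw [Finset.disjoint_left]
    intro n h1 h2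
    rw [mem_F] at h1 h2
    linarith [h1.2.2, h2.2.1]

lemma card_mono (A : Set ℕ) {u u' v v' : ℝ} (hu : u' ≤ u) (hv : v ≤ v') :
    (F A u v).card ≤ (F A u' v').card := by
  apply Finset.card_le_card
  intro n hn
  rw [mem_F] at *
  exact ⟨hn.1, lt_of_le_of_lt hu hn.2.1, hn.2.2.trans hv⟩

lemma windows (A : Set ℕ) {ε δ g X Y : ℝ} (hε : 0 < ε) (hδ : 0 ≤ δ) (hg : 0 ≤ g) (hX : 0 < X)
    (H : ∀ y, X ≤ y → y ≤ Y → δ * y ^ g ≤ ((F A y ((1+ε)*y)).card : ℝ))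
    {y₀ : ℝ} (h0 : X ≤ y₀) (I : ℕ) (hI : y₀ * (1+ε)^I ≤ Y) :
    (I : ℝ) * (δ * y₀ ^ g) ≤ ((F A y₀ (y₀ * (1+ε)^I)).card : ℝ) := by
  induction I with
  | zero => simp
  | succ I ih =>
    have h1 : (1:ℝ) ≤ (1+ε)^I := one_le_pow₀ (by linarith)
    have hy0 : 0 < y₀ := lt_of_lt_of_le hX h0
    have hpos : 0 < y₀ * (1+ε)^I := by positivity
    have heq : y₀ * (1+ε)^(I+1) = (1+ε) * (y₀ * (1+ε)^I) := by ring
    have hle : y₀ * (1+ε)^I ≤ y₀ * (1+ε)^(I+1) := by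
      rw [heq]; nlinarith
    have hge : y₀ ≤ y₀ * (1+ε)^I := by nlinarith
    have ih' := ih (hle.trans hI)
    have H' := H (y₀ * (1+ε)^I) (h0.trans hge) (hle.trans hI)
    have hadd := card_add_le A (u := y₀) (v := y₀ * (1+ε)^I) (w := y₀ * (1+ε)^(I+1)) hge hle
    have hadd' : ((F A y₀ (y₀ * (1+ε)^I)).card : ℝ) +
        ((F A (y₀ * (1+ε)^I) (y₀ * (1+ε)^(I+1))).card : ℝ) ≤
        ((F A y₀ (y₀ * (1+ε)^(I+1))).card : ℝ) := by exact_mod_cast hadd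
    rw [heq] at hadd' ⊢
    have hpow : y₀ ^ g ≤ (y₀ * (1+ε)^I) ^ g := Real.rpow_le_rpow hy0.le hge hg
    have h2 : δ * y₀ ^ g ≤ δ * (y₀ * (1+ε)^I) ^ g := mul_le_mul_of_nonneg_left hpow hδ
    push_cast
    nlinarith

/-- the scale interval determines the scale -/
lemma scale_unique {X x : ℝ} (hX : 0 < X) {i j : ℕ}
    (h1 : (4:ℝ)^i * X < x) (h2 : x ≤ (5/2) * ((4:ℝ)^i * X))
    (h3 : (4:ℝ)^j * X < x) (h4 : x ≤ (5/2) * ((4:ℝ)^j * X)) : i = j := by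
  have key : ∀ a b : ℕ, a < b → (4:ℝ) * (4^a * X) ≤ 4^b * X := by
    intro a b hab
    have : (4:ℝ)^(a+1) ≤ 4^b := pow_le_pow_right₀ (by norm_num) hab
    rw [pow_succ] at this
    nlinarith
  rcases lt_trichotomy i j with h | h | h
  · have := key i j h
    have hp : 0 < (4:ℝ)^i * X := by positivity
    linarith
  · exact h
  · have := key j i h
    have hp : 0 < (4:ℝ)^j * X := by positivity
    linarith

end Pool.Agent.helper79.Bh
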