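import Pool.Agent.helper79.Bh1

set_option autoImplicit false

open Finset

namespace Pool.Agent.helper79.Bh

lemma sum_bounds_card {S : Finset ℕ} {k : ℕ} (hS : S.card = k) {lo hi : ℝ}
    (h : ∀ x ∈ S, lo ≤ (x:ℝ) ∧ (x:ℝ) ≤ hi) :
    (k:ℝ) * lo ≤ ∑ x ∈ S, (x:ℝ) ∧ ∑ x ∈ S, (x:ℝ) ≤ (k:ℝ) * hi := by
  constructor
  · have := Finset.card_nsmul_le_sum S (fun x => (x:ℝ)) lo (fun x hx => (h x hx).1)
    rw [hS, nsmul_eq_mul] at this
    exact this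
  · have := Finset.sum_le_card_nsmul S (fun x => (x:ℝ)) hi (fun x hx => (h x hx).2)
    rw [hS, nsmul_eq_mul] at this
    exact this

/-- the real number `∑ B - ∑ A'`. -/
noncomputable def sv (q : Finset ℕ × Finset ℕ) : ℝ := ∑ x ∈ q.1, (x:ℝ) - ∑ x ∈ q.2, (x:ℝ)

lemma val_sum (U : Finset ℕ) : U.val.sum = ∑ b ∈ U, b :=
  (Finset.sum_val U).trans rfl

lemma filt (lo hi : ℝ) (U : Finset ℕ) (hU : ∀ x ∈ U, lo < (x:ℝ) ∧ (x:ℝ) ≤ hi) :
    Multiset.filter (fun x : ℕ => lo < (x:ℝ) ∧ (x:ℝ) ≤ hi) U.val = U.val := by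
  rw [Multiset.filter_eq_self]
  intro x hx
  exact hU x hx

lemma filt0 (lo hi : ℝ) (U : Finset ℕ) (hU : ∀ x ∈ U, ¬ (lo < (x:ℝ) ∧ (x:ℝ) ≤ hi)) :
    Multiset.filter (fun x : ℕ => lo < (x:ℝ) ∧ (x:ℝ) ≤ hi) U.val = 0 := by
  rw [Multiset.filter_eq_nil]
  intro x hx
  exact hU x hx

lemma filt1 (lo hi : ℝ) (a : ℕ) (ha : ¬ (lo < (a:ℝ) ∧ (a:ℝ) ≤ hi)) :
    Multiset.filter (fun x : ℕ => lo < (x:ℝ) ∧ (x:ℝ) ≤ hi) {a} = 0 := by
  rw [Multiset.filter_eq_nil]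
  intro x hx
  rw [Multiset.mem_singleton] at hx
  rw [hx]; exact ha

/-- The uniqueness step. -/
lemma uniq {k : ℕ} (hk : 2 ≤ k) {A : Set ℕ} (hA : IsBh (2*k-1) A) {X r₁ r₂ : ℝ} (hX : 0 < X)
    (hr1 : 1 < r₁) (hr12 : r₁ ≤ r₂) (hr2 : r₂ ≤ 5/4) {j j' : ℕ} {S S' T T' : Finset ℕ} {a a' : ℕ}
    (hS2 : S.card = k) (hS2' : S'.card = k) (hT2 : T.card = k-2) (hT2' : T'.card = k-2)
    (pS : ∀ x ∈ S, x ∈ A ∧ (4:ℝ)^j * X < x ∧ (x:ℝ) ≤ r₁ * ((4:ℝ)^j * X))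
    (pS' : ∀ x ∈ S', x ∈ A ∧ (4:ℝ)^j' * X < x ∧ (x:ℝ) ≤ r₁ * ((4:ℝ)^j' * X))
    (pT : ∀ x ∈ T, x ∈ A ∧ r₁ * ((4:ℝ)^j * X) < x ∧ (x:ℝ) ≤ r₂ * ((4:ℝ)^j * X))
    (pT' : ∀ x ∈ T', x ∈ A ∧ r₁ * ((4:ℝ)^j' * X) < x ∧ (x:ℝ) ≤ r₂ * ((4:ℝ)^j' * X))
    (ha : a ∈ A) (ha' : a' ∈ A)
    (pa : (7/4) * ((4:ℝ)^j * X) < a ∧ (a:ℝ) ≤ (5/2) * ((4:ℝ)^j * X))
    (pa' : (7/4) * ((4:ℝ)^j' * X) < a' ∧ (a':ℝ) ≤ (5/2) * ((4:ℝ)^j' * X))
    (hsum : (∑ b ∈ S, b) + (∑ c ∈ T', c) + a' = (∑ b ∈ S', b) + (∑ c ∈ T, c) + a) :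
    j = j' ∧ S = S' ∧ T = T' ∧ a = a' := by
  have hMj : 0 < (4:ℝ)^j * X := by positivity
  have hMj' : 0 < (4:ℝ)^j' * X := by positivity
  have hr1' : r₁ ≤ 5/4 := hr12.trans hr2
  have q1 : r₁ * ((4:ℝ)^j * X) ≤ (5/4) * ((4:ℝ)^j * X) := mul_le_mul_of_nonneg_right hr1' hMj.le
  have q1' : r₁ * ((4:ℝ)^j' * X) ≤ (5/4) * ((4:ℝ)^j' * X) := mul_le_mul_of_nonneg_right hr1' hMj'.le
  have q2 : r₂ * ((4:ℝ)^j * X) ≤ (5/4) * ((4:ℝ)^j * X) := mul_le_mul_of_nonneg_right hr2 hMj.le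
  have q2' : r₂ * ((4:ℝ)^j' * X) ≤ (5/4) * ((4:ℝ)^j' * X) := mul_le_mul_of_nonneg_right hr2 hMj'.le
  have hms : S.val + T'.val + {a'} = S'.val + T.val + {a} := by
    apply hA
    · simp only [Multiset.card_add, Finset.card_val, Multiset.card_singleton, hS2, hT2']
      omega
    · simp only [Multiset.card_add, Finset.card_val, Multiset.card_singleton, hS2', hT2]
      omega
    · intro x hx
      simp only [Multiset.mem_add, Finset.mem_val, Multiset.mem_singleton] at hx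
      rcases hx with (h | h) | h
      · exact (pS x h).1
      · exact (pT' x h).1
      · rw [h]; exact ha'
    · intro x hx
      simp only [Multiset.mem_add, Finset.mem_val, Multiset.mem_singleton] at hx
      rcases hx with (h | h) | h
      · exact (pS' x h).1
      · exact (pT x h).1
      · rw [h]; exact ha
    · simp only [Multiset.sum_add, Multiset.sum_singleton, val_sum]
      exact hsum
  -- `j = j'`
  have hjj : j = j' := by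
    have hSne : S.Nonempty := by
      rw [← Finset.card_pos, hS2]; omega
    obtain ⟨b, hb⟩ := hSne
    have hbm : b ∈ S'.val + T.val + {a} := by
      rw [← hms]
      simp [hb]
    simp only [Multiset.mem_add, Finset.mem_val, Multiset.mem_singleton] at hbm
    have hbS := pS b hb
    rcases hbm with (h | h) | h
    · have := pS' b h
      exact scale_unique hX hbS.2.1 (by linarith [hbS.2.2]) this.2.1 (by linarith [this.2.2])
    · exfalso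
      have := pT b h
      linarith [this.2.1, hbS.2.2]
    · exfalso
      have h3 := pa.1
      rw [← h] at h3
      linarith [hbS.2.2]
  subst hjj
  -- `S = S'`
  have hSS : S = S' := by
    have := congrArg (Multiset.filter (fun x : ℕ => (4:ℝ)^j * X < (x:ℝ) ∧ (x:ℝ) ≤ r₁ * ((4:ℝ)^j * X))) hms
    rw [Multiset.filter_add, Multiset.filter_add, Multiset.filter_add, Multiset.filter_add,
      filt _ _ S (fun x hx => (pS x hx).2), filt _ _ S' (fun x hx => (pS' x hx).2),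
      filt0 _ _ T' (fun x hx h => absurd h.2 (not_le.2 (pT' x hx).2.1)),
      filt0 _ _ T (fun x hx h => absurd h.2 (not_le.2 (pT x hx).2.1)),
      filt1 _ _ a (fun h => by linarith [h.2, pa.1]),
      filt1 _ _ a' (fun h => by linarith [h.2, pa'.1])] at this
    simpa using this
  subst hSS
  have hms2 : T'.val + {a'} = T.val + {a} := by
    rw [add_assoc, add_assoc] at hms
    exact add_left_cancel hms
  have hTT : T' = T := by
    have := congrArg (Multiset.filter (fun x : ℕ => r₁ * ((4:ℝ)^j * X) < (x:ℝ) ∧ (x:ℝ) ≤ r₂ * ((4:ℝ)^j * X))) hms2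
    rw [Multiset.filter_add, Multiset.filter_add,
      filt _ _ T' (fun x hx => (pT' x hx).2), filt _ _ T (fun x hx => (pT x hx).2),
      filt1 _ _ a (fun h => by linarith [h.2, pa.1]),
      filt1 _ _ a' (fun h => by linarith [h.2, pa'.1])] at this
    simpa using this
  subst hTT
  have haa : a' = a := by
    have := add_left_cancel hms2
    simpa using this
  exact ⟨rfl, rfl, rfl, haa.symm⟩

lemma sv_bounds {k : ℕ} (hk : 2 ≤ k) {M r₁ r₂ : ℝ} (hM : 0 < M)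
    (hr₁ : r₁ = 1 + 1/(8*(k:ℝ))) (hr₂ : r₂ = 1 + 1/(4*(k:ℝ))) {S T : Finset ℕ}
    (hS2 : S.card = k) (hT2 : T.card = k-2)
    (pS : ∀ x ∈ S, M < (x:ℝ) ∧ (x:ℝ) ≤ r₁ * M)
    (pT : ∀ x ∈ T, r₁ * M < (x:ℝ) ∧ (x:ℝ) ≤ r₂ * M) :
    (7/4) * M ≤ sv (S, T) ∧ sv (S, T) ≤ (9/4) * M := by
  have hkR : (2:ℝ) ≤ (k:ℝ) := by exact_mod_cast hk
  have hk0 : (0:ℝ) < (k:ℝ) := by linarith
  have h8 : (0:ℝ) < 1/(8*(k:ℝ)) := by positivity
  have h4 : 1/(4*(k:ℝ)) = 2 * (1/(8*(k:ℝ))) := by field_simp; ring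
  have hk8 : (k:ℝ) * (1/(8*(k:ℝ))) = 1/8 := by field_simp
  have h816 : 1/(8*(k:ℝ)) ≤ 1/16 := by
    apply one_div_le_one_div_of_le <;> linarith
  have b1 := sum_bounds_card hS2 (lo := M) (hi := r₁ * M) (fun x hx =>
    ⟨(pS x hx).1.le, (pS x hx).2⟩)
  have b2 := sum_bounds_card hT2 (lo := r₁ * M) (hi := r₂ * M) (fun x hx =>
    ⟨(pT x hx).1.le, (pT x hx).2⟩)
  have hk2 : ((k-2 : ℕ) : ℝ) = (k:ℝ) - 2 := by
    rw [Nat.cast_sub hk]; norm_num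
  rw [hk2] at b2
  simp only [sv]
  have e1 : (k:ℝ) * (r₁ * M) = k * M + (1/8) * M := by
    rw [hr₁]
    have : (k:ℝ) * ((1 + 1/(8*(k:ℝ))) * M) = k * M + (k * (1/(8*(k:ℝ)))) * M := by ring
    rw [this, hk8]
  have e2 : (k:ℝ) * (r₂ * M) = k * M + (1/4) * M := by
    rw [hr₂, h4]
    have : (k:ℝ) * ((1 + 2 * (1/(8*(k:ℝ)))) * M) = k * M + 2 * (k * (1/(8*(k:ℝ)))) * M := by ring
    rw [this, hk8]
    ring
  have e3 : ((k:ℝ) - 2) * (r₁ * M) = (k:ℝ) * (r₁ * M) - 2 * (r₁ * M) := by ring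
  have e4 : ((k:ℝ) - 2) * (r₂ * M) = (k:ℝ) * (r₂ * M) - 2 * (r₂ * M) := by ring
  have e5 : r₁ * M ≤ (1 + 1/16) * M := by
    apply mul_le_mul_of_nonneg_right _ hM.le
    rw [hr₁]; linarith
  have e7 : 1 * M ≤ r₂ * M := by
    apply mul_le_mul_of_nonneg_right _ hM.le
    rw [hr₂, h4]; linarith
  constructor
  · linarith [b1.1, b2.2]
  · linarith [b1.2, b2.1]

lemma core {k : ℕ} (hk : 2 ≤ k) {A : Set ℕ} (hA : IsBh (2*k-1) A) {X r₁ r₂ : ℝ} (hX : 0 < X)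
    (hr₁ : r₁ = 1 + 1/(8*(k:ℝ))) (hr₂ : r₂ = 1 + 1/(4*(k:ℝ)))
    (J : ℕ) (ω : ℕ → ℝ)
    (hω : ∀ j < J, ∀ s : ℝ, (7/4) * (4^j * X) ≤ s → s ≤ (9/4) * (4^j * X) →
      ω j ≤ ((F A s (s + X/4)).card : ℝ)) :
    ∑ j ∈ range J, (((F A (4^j * X) (r₁ * (4^j * X))).card.choose k : ℝ) *
      ((F A (r₁ * (4^j * X)) (r₂ * (4^j * X))).card.choose (k-2) : ℝ)) * ω j ≤ X / 4 := by
  classical
  have hkR : (2:ℝ) ≤ (k:ℝ) := by exact_mod_cast hk
  have hk0 : (0:ℝ) < (k:ℝ) := by linarith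
  have h8 : (0:ℝ) < 1/(8*(k:ℝ)) := by positivity
  have h4 : 1/(4*(k:ℝ)) = 2 * (1/(8*(k:ℝ))) := by field_simp; ring
  have hr12 : r₁ ≤ r₂ := by rw [hr₁, hr₂, h4]; linarith
  have hr1 : 1 < r₁ := by rw [hr₁]; linarith
  have hr2 : r₂ ≤ 5/4 := by
    rw [hr₂, h4]
    have : 1/(8*(k:ℝ)) ≤ 1/8 := by
      apply one_div_le_one_div_of_le <;> linarith
    linarith
  -- index sets
  let B : ℕ → Finset ℕ := fun j => F A (4^j * X) (r₁ * (4^j * X))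
  let C : ℕ → Finset ℕ := fun j => F A (r₁ * (4^j * X)) (r₂ * (4^j * X))
  let base : Finset (Σ _ : ℕ, Finset ℕ × Finset ℕ) :=
    (range J).sigma (fun j => powersetCard k (B j) ×ˢ powersetCard (k-2) (C j))
  let total : Finset (Σ _ : (Σ _ : ℕ, Finset ℕ × Finset ℕ), ℕ) :=
    base.sigma (fun p => F A (sv p.2) (sv p.2 + X/4))
  have hbase : ∀ j S T, (⟨j, (S, T)⟩ : Σ _ : ℕ, Finset ℕ × Finset ℕ) ∈ base →
      j < J ∧ S.card = k ∧ T.card = k-2 ∧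
      (∀ x ∈ S, x ∈ A ∧ (4:ℝ)^j * X < x ∧ (x:ℝ) ≤ r₁ * ((4:ℝ)^j * X)) ∧
      (∀ x ∈ T, x ∈ A ∧ r₁ * ((4:ℝ)^j * X) < x ∧ (x:ℝ) ≤ r₂ * ((4:ℝ)^j * X)) := by
    intro j S T hp
    simp only [base, Finset.mem_sigma, Finset.mem_product, Finset.mem_powersetCard,
      Finset.mem_range] at hp
    obtain ⟨hj, ⟨hB1, hB2⟩, hC1, hC2⟩ := hp
    exact ⟨hj, hB2, hC2, fun x hx => mem_F.1 (hB1 hx), fun x hx => mem_F.1 (hC1 hx)⟩
  -- bounds of `sv`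
  have hsv : ∀ p ∈ base, (7/4) * (4^p.1 * X) ≤ sv p.2 ∧ sv p.2 ≤ (9/4) * (4^p.1 * X) := by
    rintro ⟨j, ⟨S, T⟩⟩ hp
    obtain ⟨-, hS, hT, pS, pT⟩ := hbase j S T hp
    exact sv_bounds hk (by positivity) hr₁ hr₂ hS hT (fun x hx => (pS x hx).2)
      (fun x hx => (pT x hx).2)
  -- the cardinality of `total`
  have hcard : ∑ j ∈ range J, (((B j).card.choose k : ℝ) * ((C j).card.choose (k-2) : ℝ)) * ω j
      ≤ (total.card : ℝ) := by
    have e : (total.card : ℝ) = ∑ p ∈ base, ((F A (sv p.2) (sv p.2 + X/4)).card : ℝ) := by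
      rw [Finset.card_sigma]; push_cast; rfl
    rw [e]
    have e2 : ∑ j ∈ range J, (((B j).card.choose k : ℝ) * ((C j).card.choose (k-2) : ℝ)) * ω j
        = ∑ p ∈ base, ω p.1 := by
      rw [Finset.sum_sigma]
      apply Finset.sum_congr rfl
      intro j _
      simp only [Finset.sum_const, Finset.card_product, Finset.card_powersetCard, nsmul_eq_mul]
      push_cast
      ring
    rw [e2]
    apply Finset.sum_le_sum
    intro p hp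
    have hp' := hsv p hp
    have hpJ : p.1 < J := by
      have := (Finset.mem_sigma.1 hp).1
      exact Finset.mem_range.1 this
    exact hω p.1 hpJ _ hp'.1 hp'.2
  refine hcard.trans ?_
  -- the map
  let f : (Σ _ : (Σ _ : ℕ, Finset ℕ × Finset ℕ), ℕ) → ℤ := fun x =>
    ((∑ b ∈ x.1.2.1, b : ℕ) : ℤ) - ((∑ c ∈ x.1.2.2, c : ℕ) : ℤ) - (x.2 : ℤ)
  have hmaps : ∀ x ∈ total, f x ∈ Finset.Icc (-⌊X/4⌋) (-1) := by
    rintro ⟨p, a⟩ hx
    have hx' := Finset.mem_sigma.1 hx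
    have ha := mem_F.1 hx'.2
    have hf : ((f ⟨p, a⟩ : ℤ) : ℝ) = sv p.2 - (a:ℝ) := by
      simp only [f, sv]; push_cast; ring
    simp only at ha
    rw [Finset.mem_Icc]
    constructor
    · have : -(f ⟨p, a⟩) ≤ ⌊X/4⌋ := by
        rw [Int.le_floor]
        push_cast
        rw [hf]
        linarith [ha.2.2]
      linarith
    · have : ((f ⟨p, a⟩ : ℤ) : ℝ) < 0 := by
        rw [hf]; linarith [ha.2.1]
      have : f ⟨p, a⟩ < 0 := by exact_mod_cast this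
      omega
  have hinj : Set.InjOn f (total : Set _) := by
    rintro ⟨⟨j, ⟨S, T⟩⟩, a⟩ hx ⟨⟨j', ⟨S', T'⟩⟩, a'⟩ hx' hff
    have m := Finset.mem_sigma.1 (Finset.mem_coe.1 hx)
    have m' := Finset.mem_sigma.1 (Finset.mem_coe.1 hx')
    have hs := hsv _ m.1
    have hs' := hsv _ m'.1
    have ma := mem_F.1 m.2
    have ma' := mem_F.1 m'.2
    obtain ⟨-, hS, hT, pS, pT⟩ := hbase j S T m.1
    obtain ⟨-, hS', hT', pS', pT'⟩ := hbase j' S' T' m'.1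
    simp only at ma ma' hs hs'
    have hMj : 0 < (4:ℝ)^j * X := by positivity
    have hMj' : 0 < (4:ℝ)^j' * X := by positivity
    have hXj : X ≤ (4:ℝ)^j * X := by
      have : (1:ℝ) ≤ 4^j := one_le_pow₀ (by norm_num)
      nlinarith
    have hXj' : X ≤ (4:ℝ)^j' * X := by
      have : (1:ℝ) ≤ 4^j' := one_le_pow₀ (by norm_num)
      nlinarith
    have hsum : (∑ b ∈ S, b) + (∑ c ∈ T', c) + a' = (∑ b ∈ S', b) + (∑ c ∈ T, c) + a := by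
      simp only [f] at hff
      have : (((∑ b ∈ S, b) + (∑ c ∈ T', c) + a' : ℕ) : ℤ)
          = (((∑ b ∈ S', b) + (∑ c ∈ T, c) + a : ℕ) : ℤ) := by
        rw [Nat.cast_add, Nat.cast_add, Nat.cast_add, Nat.cast_add]
        linarith
      exact Nat.cast_injective this
    have key := uniq hk hA hX hr1 hr12 hr2 hS hS' hT hT' pS pS' pT pT' ma.1 ma'.1
      ⟨by linarith [ma.2.1, hs.1], by linarith [ma.2.2, hs.2]⟩
      ⟨by linarith [ma'.2.1, hs'.1], by linarith [ma'.2.2, hs'.2]⟩ hsum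
    obtain ⟨rfl, rfl, rfl, rfl⟩ := key
    rfl
  have hle : total.card ≤ (Finset.Icc (-⌊X/4⌋) (-1)).card :=
    Finset.card_le_card_of_injOn f hmaps hinj
  rw [Int.card_Icc] at hle
  have hfl : 0 ≤ ⌊X/4⌋ := Int.floor_nonneg.2 (by positivity)
  have h5 : ((total.card : ℤ)) ≤ ⌊X/4⌋ := by omega
  have h6 : ((total.card : ℤ) : ℝ) ≤ X/4 := Int.le_floor.1 h5
  exact_mod_cast h6

end Pool.Agent.helper79.Bh
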