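import Pool.Agent.helper79.Bh2

set_option autoImplicit false

open Finset

namespace Pool.Agent.helper79.Bh

lemma pow_bound {ε : ℝ} (hε : 0 < ε) (n : ℕ) (hn : (n:ℝ) * ε ≤ 1) :
    (1+ε)^n ≤ 1 + 2 * (n * ε) := by
  have key : ∀ m : ℕ, (m:ℝ) * ε ≤ 1 → (1+ε)^m ≤ 1 + m * ε + (m*ε)^2 := by
    intro m
    induction m with
    | zero => intro _; simp
    | succ m ih =>
      intro hm
      push_cast at hm
      have hm' : (m:ℝ) * ε ≤ 1 := by nlinarith
      have := ih hm'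
      rw [pow_succ]
      have h1 : (1+ε)^m * (1+ε) ≤ (1 + m * ε + (m*ε)^2) * (1+ε) :=
        mul_le_mul_of_nonneg_right this (by linarith)
      refine h1.trans ?_
      push_cast
      have h2 : 0 ≤ ε^2 := by positivity
      have h3 : (0:ℝ) ≤ m := by positivity
      have h4 : (m:ℝ) * (m * ε) ≤ m * 1 := mul_le_mul_of_nonneg_left hm' h3
      nlinarith [mul_nonneg h2 h3, mul_le_mul_of_nonneg_left h4 h2]
  have h := key n hn
  have h0 : 0 ≤ (n:ℝ) * ε := by positivity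
  nlinarith

lemma choose_lower {n r : ℕ} (hn : 2 * r ≤ n) {ν : ℝ} (hν0 : 0 ≤ ν) (hν : ν ≤ n) :
    (ν / 2)^r / (r.factorial : ℝ) ≤ (n.choose r : ℝ) := by
  have h := Nat.pow_le_choose (α := ℝ) r n
  refine le_trans ?_ h
  apply div_le_div_of_nonneg_right _ (by positivity)
  apply pow_le_pow_left₀ (by positivity)
  have h1 : n ≤ 2 * (n + 1 - r) := by omega
  have h2 : (n:ℝ) ≤ 2 * ((n + 1 - r : ℕ) : ℝ) := by exact_mod_cast h1
  linarith

lemma half_floor {x : ℝ} (hx : 1 ≤ x) : x / 2 ≤ ((⌊x⌋₊ : ℕ) : ℝ) := by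
  have h1 : x < (⌊x⌋₊ : ℝ) + 1 := Nat.lt_floor_add_one x
  have h2 : 1 ≤ ⌊x⌋₊ := Nat.le_floor (by simpa using hx)
  have h3 : (1:ℝ) ≤ (⌊x⌋₊ : ℝ) := by exact_mod_cast h2
  linarith

/-- lower bound for the number of elements in a window -/
lemma window_count (A : Set ℕ) {ε δ g X Y : ℝ} (hε : 0 < ε) (hδ : 0 ≤ δ) (hg : 0 ≤ g) (hX : 0 < X)
    (H : ∀ y, X ≤ y → y ≤ Y → δ * y ^ g ≤ ((F A y ((1+ε)*y)).card : ℝ))
    {u v x M : ℝ} (hM : 0 < M) (hMu : M ≤ u) (hu : X ≤ u) (huv : u * (1 + 2 * (ε * x)) ≤ v)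
    (hv : v ≤ Y) (hx : 1 ≤ x) (hxε : x * ε ≤ 1) :
    (x / 2) * (δ * M ^ g) ≤ ((F A u v).card : ℝ) := by
  set I := ⌊x⌋₊ with hI
  have hu0 : 0 < u := lt_of_lt_of_le hX hu
  have hIx : (I:ℝ) ≤ x := Nat.floor_le (by linarith)
  have hIε : (I:ℝ) * ε ≤ 1 := le_trans (mul_le_mul_of_nonneg_right hIx hε.le) hxε
  have h1 := pow_bound hε I hIε
  have h2 : u * (1+ε)^I ≤ v := by
    refine le_trans ?_ huv
    apply mul_le_mul_of_nonneg_left _ hu0.le
    refine h1.trans ?_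
    have : (I:ℝ) * ε ≤ x * ε := mul_le_mul_of_nonneg_right hIx hε.le
    linarith
  have h3 := windows A hε hδ hg hX H hu I (h2.trans hv)
  have h4 : ((F A u (u * (1+ε)^I)).card : ℝ) ≤ ((F A u v).card : ℝ) := by
    exact_mod_cast card_mono A le_rfl h2
  refine le_trans ?_ (h3.trans h4)
  have h5 : M ^ g ≤ u ^ g := Real.rpow_le_rpow hM.le hMu hg
  have h6 : δ * M ^ g ≤ δ * u ^ g := mul_le_mul_of_nonneg_left h5 hδ
  have h7 : 0 ≤ δ * M ^ g := by positivity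
  have h8 := half_floor hx
  calc (x / 2) * (δ * M ^ g) ≤ (I:ℝ) * (δ * M^g) := mul_le_mul_of_nonneg_right h8 h7
    _ ≤ (I:ℝ) * (δ * u^g) := mul_le_mul_of_nonneg_left h6 (by positivity)

/-- the number of scales -/
lemma scales {ε : ℝ} (hε : 0 < ε) (hε2 : ε ≤ 1/324) {j : ℕ}
    (hj : j < ⌈Real.log (1/ε)/3⌉₊) : 18 * ε * 4^j ≤ 1 := by
  set L : ℝ := Real.log (1/ε) with hL
  have hLexp : Real.exp L = 1/ε := by rw [hL, Real.exp_log (by positivity)]
  have hjL : (j:ℝ) < L/3 := Nat.lt_ceil.1 hj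
  have h4 : (4:ℝ)^j ≤ Real.exp (L/2) := by
    have h1 : (4:ℝ)^j = Real.exp (j * Real.log 4) := by
      rw [mul_comm, Real.exp_mul, Real.exp_log (by norm_num), Real.rpow_natCast]
    rw [h1]
    apply Real.exp_le_exp.2
    have hlog4 : Real.log 4 ≤ 3/2 := by
      have : Real.log 4 = 2 * Real.log 2 := by
        rw [show (4:ℝ) = 2^2 by norm_num, Real.log_pow]; norm_num
      rw [this]
      linarith [Real.log_two_lt_d9]
    have hlog0 : 0 ≤ Real.log 4 := Real.log_nonneg (by norm_num)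
    have hj0 : (0:ℝ) ≤ j := by positivity
    calc (j:ℝ) * Real.log 4 ≤ j * (3/2) := mul_le_mul_of_nonneg_left hlog4 hj0
      _ ≤ L/2 := by linarith
  have h5 : Real.exp (L/2) ^ 2 = 1/ε := by
    rw [← hLexp, ← Real.exp_nat_mul]; congr 1; push_cast; ring
  have h6 : 0 < Real.exp (L/2) := Real.exp_pos _
  have h7 : (18 * ε * Real.exp (L/2))^2 ≤ 1 := by
    have : (18 * ε * Real.exp (L/2))^2 = 324 * ε^2 * (Real.exp (L/2))^2 := by ring
    rw [this, h5]
    have : 324 * ε^2 * (1/ε) = 324 * ε := by field_simp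
    rw [this]; linarith
  have h8 : 18 * ε * Real.exp (L/2) ≤ 1 := by
    have h9 : 0 ≤ 18 * ε * Real.exp (L/2) := by positivity
    nlinarith
  calc 18 * ε * 4^j ≤ 18 * ε * Real.exp (L/2) := mul_le_mul_of_nonneg_left h4 (by positivity)
    _ ≤ 1 := h8

/-- algebra of one scale -/
lemma term_eq {k h : ℕ} (hk : 2 ≤ k) (hh : h = 2*k-1) {g κ ε X M : ℝ} (hgh : g * (h:ℝ) = 1)
    (hM : 0 < M) (hε : 0 < ε) :
    ((κ * M^g / 2)^k / (k.factorial:ℝ)) * ((κ * M^g / 2)^(k-2) / ((k-2).factorial:ℝ)) *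
      (X / (36 * ε * M) * (64 * k * ε * κ * M^g))
    = (64 * k / (2^(2*k-2) * 36 * (k.factorial * (k-2).factorial))) * κ^h * X := by
  have hMg : (M^g)^h = M := by
    rw [← Real.rpow_natCast, ← Real.rpow_mul hM.le, hgh, Real.rpow_one]
  have e1 : k + (k-2) + 1 = h := by omega
  have e2 : k + (k-2) = 2*k-2 := by omega
  have hf1 : (k.factorial:ℝ) ≠ 0 := by positivity
  have hf2 : ((k-2).factorial:ℝ) ≠ 0 := by positivity
  have hM' : M ≠ 0 := hM.ne'
  have hε' : ε ≠ 0 := hε.ne'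
  set m : ℝ := M^g with hm
  have : ((κ * m / 2)^k / (k.factorial:ℝ)) * ((κ * m / 2)^(k-2) / ((k-2).factorial:ℝ)) *
      (X / (36 * ε * M) * (64 * k * ε * κ * m))
      = ((κ * m / 2)^(k + (k-2)) * (κ * m)) * (64 * k * X / (36 * M * (k.factorial * (k-2).factorial))) := by
    rw [pow_add]; field_simp
  rw [this, e2]
  have e3 : (κ * m / 2)^(2*k-2) * (κ * m) = κ^h * M / 2^(2*k-2) := by
    rw [div_pow, ← hMg]
    have : (κ * m)^(2*k-2) / 2^(2*k-2) * (κ * m) = ((κ*m)^(2*k-2) * (κ*m)) / 2^(2*k-2) := by ring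
    rw [this, ← pow_succ, show 2*k-2+1 = h by omega, mul_pow]
  rw [e3]
  field_simp

/-- the contribution of all scales is too large -/
lemma all_scales {k h : ℕ} (hk : 2 ≤ k) (hh : h = 2*k-1) {A : Set ℕ} (hA : IsBh h A)
    {g κ ε X : ℝ} (hg0 : 0 < g) (hgh : g * (h:ℝ) = 1) (hκ0 : 0 < κ) (hε : 0 < ε)
    (hε2 : ε ≤ 1/(324*k)) (hX1 : 1 ≤ X) (hXg : 2*k/κ ≤ X^g)
    (H : ∀ y, X ≤ y → y ≤ X/ε → (64 * k * ε * κ) * y ^ g ≤ ((F A y ((1+ε)*y)).card : ℝ))
    (J : ℕ) (hJ : ∀ j < J, 18 * ε * 4^j ≤ 1) :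
    (J:ℝ) * ((64 * k / (2^(2*k-2) * 36 * (k.factorial * (k-2).factorial))) * κ^h * X) ≤ X/4 := by
  have hkR : (2:ℝ) ≤ (k:ℝ) := by exact_mod_cast hk
  have hk0 : (0:ℝ) < (k:ℝ) := by linarith
  have hXpos : 0 < X := by linarith
  set δ : ℝ := 64 * k * ε * κ with hδ
  have hδ0 : 0 < δ := by positivity
  set r₁ : ℝ := 1 + 1/(8*(k:ℝ)) with hr₁
  set r₂ : ℝ := 1 + 1/(4*(k:ℝ)) with hr₂
  have h8 : (0:ℝ) < 1/(8*(k:ℝ)) := by positivity
  have h4' : 1/(4*(k:ℝ)) = 2 * (1/(8*(k:ℝ))) := by field_simp; ring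
  have h816 : 1/(8*(k:ℝ)) ≤ 1/16 := by
    apply one_div_le_one_div_of_le <;> linarith
  -- facts on a scale
  have hMfacts : ∀ j < J, X ≤ 4^j * X ∧ (5/2) * (4^j * X) ≤ X/ε ∧ 18 * ε * (4^j * X) ≤ X := by
    intro j hj
    have h1 := hJ j hj
    have h2 : (1:ℝ) ≤ 4^j := one_le_pow₀ (by norm_num)
    refine ⟨by nlinarith, ?_, by nlinarith⟩
    rw [le_div_iff₀ hε]
    have : 0 < ε * 4^j * X := by positivity
    nlinarith
  have hx : 1 ≤ 1/(32*k*ε) := by
    rw [le_div_iff₀ (by positivity)]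
    have : ε * (324 * k) ≤ 1 := by
      rw [le_div_iff₀ (by positivity)] at hε2; exact hε2
    nlinarith [mul_pos hε hk0]
  have hxε : 1/(32*k*ε) * ε ≤ 1 := by
    have : 1/(32*k*ε) * ε = 1/(32*(k:ℝ)) := by field_simp
    rw [this, div_le_one (by positivity)]; linarith
  have hεx : ε * (1/(32*k*ε)) = (1/(8*(k:ℝ)))/4 := by field_simp; ring
  have hr1 : r₁ ≤ 5/4 := by rw [hr₁]; linarith
  have hr2 : r₂ ≤ 5/4 := by rw [hr₂, h4']; linarith
  have hr10 : 0 < r₁ := by rw [hr₁]; linarith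
  -- the base counts
  have hcount1 : ∀ j < J, κ * (4^j*X)^g ≤ ((F A (4^j * X) (r₁ * (4^j * X))).card : ℝ) := by
    intro j hj
    obtain ⟨f1, f2, f3⟩ := hMfacts j hj
    have hM : 0 < 4^j * X := by positivity
    have := window_count A hε hδ0.le hg0.le hXpos H (u := 4^j*X) (v := r₁ * (4^j*X))
        (x := 1/(32*k*ε)) hM le_rfl f1 ?_ ?_ hx hxε
    · refine le_trans (le_of_eq ?_) this
      rw [hδ]; field_simp; ring
    · rw [hεx, mul_comm]
      apply mul_le_mul_of_nonneg_right _ hM.le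
      rw [hr₁]; linarith
    · refine le_trans ?_ f2
      apply mul_le_mul_of_nonneg_right _ hM.le
      linarith
  have hcount2 : ∀ j < J, κ * (4^j*X)^g ≤ ((F A (r₁ * (4^j * X)) (r₂ * (4^j * X))).card : ℝ) := by
    intro j hj
    obtain ⟨f1, f2, f3⟩ := hMfacts j hj
    have hM : 0 < 4^j * X := by positivity
    have hM1 : 4^j * X ≤ r₁ * (4^j * X) := by
      have : 1 * (4^j * X) ≤ r₁ * (4^j * X) := by
        apply mul_le_mul_of_nonneg_right _ hM.le
        rw [hr₁]; linarith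
      linarith
    have := window_count A hε hδ0.le hg0.le hXpos H (u := r₁ * (4^j*X)) (v := r₂ * (4^j*X))
        (x := 1/(32*k*ε)) hM hM1 (f1.trans hM1) ?_ ?_ hx hxε
    · refine le_trans (le_of_eq ?_) this
      rw [hδ]; field_simp; ring
    · rw [hεx]
      have : r₁ * (4^j*X) * (1 + 2 * (1/(8*(k:ℝ))/4)) = (r₁ * (1 + 2 * (1/(8*(k:ℝ))/4))) * (4^j*X) := by ring
      rw [this]
      apply mul_le_mul_of_nonneg_right _ hM.le
      rw [hr₁, hr₂, h4']
      nlinarith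
    · refine le_trans ?_ f2
      apply mul_le_mul_of_nonneg_right _ hM.le
      linarith
  -- the last element
  have hω : ∀ j < J, ∀ s : ℝ, (7/4) * (4^j * X) ≤ s → s ≤ (9/4) * (4^j * X) →
      X / (36 * ε * (4^j*X)) * (δ * (4^j*X)^g) ≤ ((F A s (s + X/4)).card : ℝ) := by
    intro j hj s hs1 hs2
    obtain ⟨f1, f2, f3⟩ := hMfacts j hj
    have hM : 0 < 4^j * X := by positivity
    have hx' : 1 ≤ X / (18 * ε * (4^j*X)) := by
      rw [le_div_iff₀ (by positivity)]; linarith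
    have := window_count A hε hδ0.le hg0.le hXpos H (u := s) (v := s + X/4)
        (x := X / (18 * ε * (4^j*X))) hM (by linarith) (by linarith) ?_ ?_ hx' ?_
    · refine le_trans (le_of_eq ?_) this
      congr 1
      field_simp; ring
    · have e : ε * (X / (18 * ε * (4^j*X))) = X / (18 * (4^j*X)) := by field_simp
      rw [e]
      have e2 : s * (1 + 2 * (X / (18 * (4^j*X)))) = s + s * (X / (9 * (4^j*X))) := by
        field_simp; ring
      rw [e2]
      have e3 : s * (X / (9 * (4^j*X))) ≤ (9/4) * (4^j * X) * (X / (9 * (4^j*X))) :=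
        mul_le_mul_of_nonneg_right hs2 (by positivity)
      have e4 : (9/4) * (4^j * X) * (X / (9 * (4^j*X))) = X/4 := by field_simp
      linarith
    · refine le_trans ?_ f2
      linarith
    · have e : X / (18 * ε * (4^j*X)) * ε = X / (18 * (4^j*X)) := by field_simp
      rw [e, div_le_one (by positivity)]
      linarith
  rw [hh] at hA
  have hcore := core hk hA hXpos hr₁ hr₂ J
    (fun j => X / (36 * ε * (4^j*X)) * (δ * (4^j*X)^g)) hω
  refine le_trans ?_ hcore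
  have hconst : (J:ℝ) * ((64 * k / (2^(2*k-2) * 36 * (k.factorial * (k-2).factorial))) * κ^h * X)
      = ∑ j ∈ range J, ((64 * k / (2^(2*k-2) * 36 * (k.factorial * (k-2).factorial))) * κ^h * X) := by
    rw [Finset.sum_const, Finset.card_range, nsmul_eq_mul]
  rw [hconst]
  apply Finset.sum_le_sum
  intro j hj
  have hj' : j < J := Finset.mem_range.1 hj
  obtain ⟨f1, f2, f3⟩ := hMfacts j hj'
  have hM : 0 < 4^j * X := by positivity
  rw [← term_eq (X := X) hk hh hgh hM hε]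
  have hν : 2 * (k:ℝ) ≤ κ * (4^j*X)^g := by
    have h1 : X^g ≤ (4^j*X)^g := Real.rpow_le_rpow hXpos.le f1 hg0.le
    have h2 : 2*k/κ ≤ (4^j*X)^g := hXg.trans h1
    rw [div_le_iff₀ hκ0] at h2
    linarith
  have hν0 : 0 ≤ κ * (4^j*X)^g := by linarith
  have c1 := hcount1 j hj'
  have c2 := hcount2 j hj'
  have n1 : 2 * k ≤ (F A (4^j * X) (r₁ * (4^j * X))).card := by
    have : ((2 * k : ℕ) : ℝ) ≤ ((F A (4^j * X) (r₁ * (4^j * X))).card : ℝ) := by
      push_cast; linarith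
    exact_mod_cast this
  have n2 : 2 * (k-2) ≤ (F A (r₁ * (4^j * X)) (r₂ * (4^j * X))).card := by
    have : ((2 * k : ℕ) : ℝ) ≤ ((F A (r₁ * (4^j * X)) (r₂ * (4^j * X))).card : ℝ) := by
      push_cast; linarith
    have : 2 * k ≤ (F A (r₁ * (4^j * X)) (r₂ * (4^j * X))).card := by exact_mod_cast this
    omega
  have b1 := choose_lower n1 hν0 c1
  have b2 := choose_lower n2 hν0 c2
  have hpos1 : 0 ≤ (κ * (4^j*X)^g / 2)^k / (k.factorial:ℝ) := by positivity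
  have hpos2 : 0 ≤ (κ * (4^j*X)^g / 2)^(k-2) / ((k-2).factorial:ℝ) := by positivity
  have hω0 : 0 ≤ X / (36 * ε * (4^j*X)) * (δ * (4^j*X)^g) := by positivity
  exact mul_le_mul_of_nonneg_right (mul_le_mul b1 b2 hpos2 (by positivity)) hω0

lemma small_case (k : ℕ) (hk : 2 ≤ k) :
    ∃ C : ℝ, 0 < C ∧ ∀ ε : ℝ, 0 < ε → ε ≤ 1/(324*k) →
      ∃ X₀ : ℝ, 0 < X₀ ∧ ∀ A : Set ℕ, IsBh (2*k-1) A → ∀ X : ℝ, X₀ ≤ X →
        ∃ y : ℝ, X ≤ y ∧ y ≤ X / ε ∧
          ((F A y ((1+ε)*y)).card : ℝ)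
            ≤ C * ε * (Real.log (1 / ε)) ^ (-(1 / ((2*k-1 : ℕ) : ℝ))) * y ^ (1 / ((2*k-1 : ℕ) : ℝ)) := by
  have hkR : (2:ℝ) ≤ (k:ℝ) := by exact_mod_cast hk
  have hk0 : (0:ℝ) < (k:ℝ) := by linarith
  obtain ⟨h, hh⟩ : ∃ h, h = 2*k-1 := ⟨_, rfl⟩
  rw [← hh]
  have hhpos : 0 < h := by omega
  have hhR : (0:ℝ) < (h:ℝ) := by exact_mod_cast hhpos
  set g : ℝ := 1/(h:ℝ) with hg
  have hg0 : 0 < g := by positivity
  have hgh : g * (h:ℝ) = 1 := by rw [hg]; field_simp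
  -- the constant
  set c : ℝ := 64 * k / (2^(2*k-2) * 36 * (k.factorial * (k-2).factorial)) with hc
  have hc0 : 0 < c := by positivity
  set K : ℝ := 1/c + 1 with hK
  have hK1 : 1 ≤ K := by
    rw [hK]; have : 0 < 1/c := by positivity
    linarith
  have hcK : 1 < c * K ^ h := by
    have h1 : K ≤ K^h := by
      calc K = K^1 := (pow_one K).symm
        _ ≤ K^h := pow_le_pow_right₀ hK1 hhpos
    have h2 : c * K = 1 + c := by rw [hK]; field_simp
    have h3 : c * K ≤ c * K^h := mul_le_mul_of_nonneg_left h1 hc0.le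
    linarith
  refine ⟨64 * k * K, by positivity, ?_⟩
  intro ε hε hε2
  have hε3 : ε ≤ 1/324 := by
    refine hε2.trans ?_
    apply one_div_le_one_div_of_le (by norm_num); linarith
  set L : ℝ := Real.log (1/ε) with hL
  have hL0 : 0 < L := by
    rw [hL]; apply Real.log_pos
    rw [lt_div_iff₀ hε]; linarith
  -- κ
  set κ : ℝ := K * L ^ (-g) with hκ
  have hLg : 0 < L ^ (-g) := Real.rpow_pos_of_pos hL0 _
  have hκ0 : 0 < κ := by positivity
  have hκh : κ ^ h = K^h / L := by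
    rw [hκ, mul_pow, ← Real.rpow_natCast (L ^ (-g)) h, ← Real.rpow_mul hL0.le]
    have : -g * (h:ℝ) = -1 := by linarith
    rw [this, Real.rpow_neg_one]
    rfl
  refine ⟨max 1 ((2*k/κ)^h), lt_of_lt_of_le one_pos (le_max_left _ _), ?_⟩
  intro A hA X hX0
  have hX1 : 1 ≤ X := le_trans (le_max_left _ _) hX0
  have hXpos : 0 < X := by linarith
  have hXg : 2*k/κ ≤ X ^ g := by
    have h1 : (2*k/κ)^h ≤ X := le_trans (le_max_right _ _) hX0
    have h2 : 0 ≤ 2*k/κ := by positivity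
    calc 2*k/κ = ((2*k/κ)^h)^g := by
          rw [← Real.rpow_natCast (2*k/κ) h, ← Real.rpow_mul h2, mul_comm (h:ℝ) g, hgh, Real.rpow_one]
      _ ≤ X^g := Real.rpow_le_rpow (by positivity) h1 hg0.le
  by_contra hcon
  push Not at hcon
  have H : ∀ y, X ≤ y → y ≤ X/ε → (64 * k * ε * κ) * y ^ g ≤ ((F A y ((1+ε)*y)).card : ℝ) := by
    intro y h1 h2
    have := hcon y h1 h2
    refine le_trans (le_of_eq ?_) this.le
    rw [hκ]; ring
  have hall := all_scales hk hh hA hg0 hgh hκ0 hε hε2 hX1 hXg H ⌈L/3⌉₊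
    (fun j hj => scales hε hε3 hj)
  rw [← hc, hκh] at hall
  have hJL : L/3 ≤ ⌈L/3⌉₊ := Nat.le_ceil _
  have h5 : 0 ≤ c * (K^h / L) * X := by positivity
  have h6 : L/3 * (c * (K^h / L) * X) ≤ X/4 := (mul_le_mul_of_nonneg_right hJL h5).trans hall
  have h7 : L/3 * (c * (K^h / L) * X) = (c * K^h) * (X/3) := by field_simp
  rw [h7] at h6
  have h8 : X/3 < (c * K^h) * (X/3) := by
    have : 0 < X/3 := by positivity
    nlinarith
  linarith

end Pool.Agent.helper79.Bh
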