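import Pool.Agent.helper79.Bh3

set_option autoImplicit false

open Finset

namespace Pool.Agent.helper79.Bh

/-- trivial bound for the counting function of a B_h-set -/
lemma trivial_bound {h : ℕ} (hh : 1 ≤ h) {A : Set ℕ} (hA : IsBh h A) {N : ℝ} (hN : 1 ≤ N) :
    ((F A 0 N).card : ℝ) ≤ (4 * h * h.factorial) * N ^ (1/(h:ℝ)) := by
  have hhR : (1:ℝ) ≤ (h:ℝ) := by exact_mod_cast hh
  have hN0 : 0 < N := by linarith
  set g : ℝ := 1/(h:ℝ) with hg
  have hg0 : 0 < g := by positivity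
  have hg1 : g ≤ 1 := by rw [hg, div_le_one (by linarith)]; exact hhR
  have hgh : g * (h:ℝ) = 1 := by rw [hg]; field_simp
  have hNg : 1 ≤ N^g := Real.one_le_rpow hN hg0.le
  have hfac : (1:ℝ) ≤ (h.factorial:ℝ) := by exact_mod_cast Nat.one_le_iff_ne_zero.2 (Nat.factorial_ne_zero h)
  by_cases hcase : (F A 0 N).card < 2 * h
  · have h1 : ((F A 0 N).card : ℝ) ≤ 2 * h := by exact_mod_cast hcase.le
    have h2 : (2:ℝ) * h ≤ (4 * h * h.factorial) * 1 := by nlinarith
    have h3 : (4 * (h:ℝ) * h.factorial) * 1 ≤ (4 * h * h.factorial) * N^g :=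
      mul_le_mul_of_nonneg_left hNg (by positivity)
    linarith
  · push Not at hcase
    -- the map
    have hmaps : ∀ S ∈ powersetCard h (F A 0 N), (∑ x ∈ S, x) ∈ range (⌊(h:ℝ) * N⌋₊ + 1) := by
      intro S hS
      rw [mem_powersetCard] at hS
      rw [mem_range]
      have h1 := (sum_bounds_card hS.2 (lo := 0) (hi := N) (fun x hx => by
        have := mem_F.1 (hS.1 hx)
        exact ⟨this.2.1.le, this.2.2⟩)).2
      have h2 : ((∑ x ∈ S, x : ℕ) : ℝ) ≤ (h:ℝ) * N := by push_cast; exact h1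
      have := Nat.le_floor h2
      omega
    have hinj : Set.InjOn (fun S : Finset ℕ => ∑ x ∈ S, x) (powersetCard h (F A 0 N) : Set (Finset ℕ)) := by
      intro S hS T hT hST
      rw [Finset.mem_coe, mem_powersetCard] at hS hT
      have := hA S.val T.val (by rw [Finset.card_val]; exact hS.2) (by rw [Finset.card_val]; exact hT.2)
        (fun x hx => (mem_F.1 (hS.1 hx)).1) (fun x hx => (mem_F.1 (hT.1 hx)).1)
        (by rw [val_sum, val_sum]; exact hST)
      exact Finset.val_injective this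
    have hle := Finset.card_le_card_of_injOn _ hmaps hinj
    rw [card_powersetCard, card_range] at hle
    have hle' : ((F A 0 N).card.choose h : ℝ) ≤ 2 * h * N := by
      have h1 : ((F A 0 N).card.choose h : ℝ) ≤ (⌊(h:ℝ) * N⌋₊ : ℝ) + 1 := by exact_mod_cast hle
      have h2 : (⌊(h:ℝ) * N⌋₊ : ℝ) ≤ h * N := Nat.floor_le (by positivity)
      have h3 : (1:ℝ) ≤ h * N := by nlinarith
      linarith
    have hlow := choose_lower (n := (F A 0 N).card) (r := h) hcase (ν := ((F A 0 N).card : ℝ))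
      (by positivity) le_rfl
    have h3 : (((F A 0 N).card : ℝ)/2)^h ≤ (2 * h * h.factorial) * N := by
      have := hlow.trans hle'
      rw [div_le_iff₀ (by positivity)] at this
      linarith
    have hD1 : (1:ℝ) ≤ 2 * h * h.factorial := by nlinarith
    have h4 : ((F A 0 N).card : ℝ)/2 ≤ (2 * h * h.factorial) * N^g := by
      calc ((F A 0 N).card : ℝ)/2 = ((((F A 0 N).card : ℝ)/2)^h)^g := by
            rw [← Real.rpow_natCast _ h, ← Real.rpow_mul (by positivity), mul_comm (h:ℝ) g, hgh,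
              Real.rpow_one]
        _ ≤ ((2 * h * h.factorial) * N)^g := Real.rpow_le_rpow (by positivity) h3 hg0.le
        _ = (2 * h * h.factorial)^g * N^g := Real.mul_rpow (by positivity) hN0.le
        _ ≤ (2 * h * h.factorial) * N^g := by
            apply mul_le_mul_of_nonneg_right _ (by positivity)
            calc ((2:ℝ) * h * h.factorial)^g ≤ (2 * h * h.factorial)^(1:ℝ) :=
                  Real.rpow_le_rpow_of_exponent_le hD1 hg1
              _ = _ := Real.rpow_one _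
    linarith

/-- The full range of `ε`. -/
lemma full_case (k : ℕ) (hk : 2 ≤ k) :
    ∃ C : ℝ, 0 < C ∧ ∀ ε : ℝ, 0 < ε → ε ≤ 1/2 →
      ∃ X₀ : ℝ, 0 < X₀ ∧ ∀ A : Set ℕ, IsBh (2*k-1) A → ∀ X : ℝ, X₀ ≤ X →
        ∃ y : ℝ, X ≤ y ∧ y ≤ X / ε ∧
          ((F A y ((1+ε)*y)).card : ℝ)
            ≤ C * ε * (Real.log (1 / ε)) ^ (-(1 / ((2*k-1 : ℕ) : ℝ))) * y ^ (1 / ((2*k-1 : ℕ) : ℝ)) := by
  have hkR : (2:ℝ) ≤ (k:ℝ) := by exact_mod_cast hk
  have hk0 : (0:ℝ) < (k:ℝ) := by linarith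
  obtain ⟨C₁, hC₁, hsmall⟩ := small_case k hk
  obtain ⟨h, hh⟩ : ∃ h, h = 2*k-1 := ⟨_, rfl⟩
  rw [← hh] at hsmall ⊢
  have hhpos : 1 ≤ h := by omega
  have hhR : (1:ℝ) ≤ (h:ℝ) := by exact_mod_cast hhpos
  set g : ℝ := 1/(h:ℝ) with hg
  have hg0 : 0 < g := by positivity
  have hg1 : g ≤ 1 := by rw [hg, div_le_one (by linarith)]; exact hhR
  set D : ℝ := 4 * h * h.factorial with hD
  have hD0 : 0 < D := by positivity
  set C₂ : ℝ := 2 * D * (324*k) * (324*k) with hC₂
  have hC₂0 : 0 < C₂ := by positivity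
  refine ⟨C₁ + C₂, by positivity, ?_⟩
  intro ε hε hε2
  have hL0 : 0 < Real.log (1/ε) := by
    apply Real.log_pos
    rw [lt_div_iff₀ hε]; linarith
  have hLg : 0 < Real.log (1/ε) ^ (-g) := Real.rpow_pos_of_pos hL0 _
  by_cases hs : ε ≤ 1/(324*k)
  · obtain ⟨X₀, hX₀, hmain⟩ := hsmall ε hε hs
    refine ⟨X₀, hX₀, ?_⟩
    intro A hA X hX
    obtain ⟨y, hy1, hy2, hy3⟩ := hmain A hA X hX
    refine ⟨y, hy1, hy2, hy3.trans ?_⟩
    have hy0 : 0 < y := by linarith
    have : 0 ≤ ε * Real.log (1/ε) ^ (-g) * y^g := by positivity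
    nlinarith
  · push Not at hs
    refine ⟨1, one_pos, ?_⟩
    intro A hA X hX
    have hX0 : 0 < X := by linarith
    refine ⟨X, le_rfl, ?_, ?_⟩
    · rw [le_div_iff₀ hε]; nlinarith
    · have h1 : ((F A X ((1+ε)*X)).card : ℝ) ≤ ((F A 0 (2*X)).card : ℝ) := by
        have : (F A X ((1+ε)*X)).card ≤ (F A 0 (2*X)).card := by
          apply card_mono A hX0.le
          nlinarith
        exact_mod_cast this
      have h2 := trivial_bound hhpos hA (N := 2*X) (by linarith)
      rw [← hg, ← hD] at h2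
      have h3 : (2*X)^g ≤ 2 * X^g := by
        rw [Real.mul_rpow (by norm_num) hX0.le]
        apply mul_le_mul_of_nonneg_right _ (by positivity)
        calc (2:ℝ)^g ≤ 2^(1:ℝ) := Real.rpow_le_rpow_of_exponent_le (by norm_num) hg1
          _ = 2 := Real.rpow_one _
      have h4 : D * (2*X)^g ≤ D * (2 * X^g) := mul_le_mul_of_nonneg_left h3 hD0.le
      -- lower bound for the logarithmic factor
      have hT1 : (1:ℝ) ≤ 324 * k := by linarith
      have hlog : Real.log (1/ε) ≤ 324 * k := by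
        have e1 : 1/ε ≤ 324*k := by
          rw [div_le_iff₀ hε]
          rw [div_lt_iff₀ (by positivity)] at hs
          linarith
        have e2 : Real.log (1/ε) ≤ 1/ε - 1 := Real.log_le_sub_one_of_pos (by positivity)
        linarith
      have h5 : 1/(324*(k:ℝ)) ≤ Real.log (1/ε) ^ (-g) := by
        rw [Real.rpow_neg hL0.le, one_div]
        apply inv_anti₀ (by positivity)
        calc Real.log (1/ε) ^ g ≤ (324*k)^g := Real.rpow_le_rpow hL0.le hlog hg0.le
          _ ≤ (324*(k:ℝ))^(1:ℝ) := Real.rpow_le_rpow_of_exponent_le hT1 hg1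
          _ = 324 * k := Real.rpow_one _
      have h6 : 1/(324*(k:ℝ)) * (1/(324*(k:ℝ))) ≤ ε * Real.log (1/ε) ^ (-g) :=
        mul_le_mul hs.le h5 (by positivity) hε.le
      have h7 : C₂ * (1/(324*(k:ℝ)) * (1/(324*(k:ℝ)))) = 2 * D := by
        rw [hC₂]; field_simp
      have h8 : 2 * D ≤ C₂ * (ε * Real.log (1/ε) ^ (-g)) := by
        rw [← h7]; exact mul_le_mul_of_nonneg_left h6 hC₂0.le
      have hXg : 0 < X^g := Real.rpow_pos_of_pos hX0 _
      have h9 : 2 * D * X^g ≤ C₂ * (ε * Real.log (1/ε) ^ (-g)) * X^g :=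
        mul_le_mul_of_nonneg_right h8 hXg.le
      have h10 : 0 ≤ C₁ * (ε * Real.log (1/ε) ^ (-g)) * X^g := by positivity
      calc ((F A X ((1+ε)*X)).card : ℝ) ≤ D * (2*X)^g := h1.trans h2
        _ ≤ 2 * D * X^g := by linarith
        _ ≤ (C₁ + C₂) * ε * Real.log (1/ε) ^ (-g) * X^g := by nlinarith

end Pool.Agent.helper79.Bh
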