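import Mathlib

/-! Combinatorial core: relations between inverses of concurrent moduli. -/

namespace Pool.Agent.helper79.Cov

open Finset

/-- A nonzero integer has few large prime factors. -/
theorem few_prime_factors {P c : ℕ} (hP : 1 < P) {H : ℤ} (hH : H ≠ 0)
    (hb : H.natAbs < P ^ (c + 1)) (s : Finset ℕ)
    (hs : ∀ p ∈ s, p.Prime ∧ P ≤ p ∧ (p : ℤ) ∣ H) : s.card ≤ c := by
  have h1 : ∏ p ∈ s, p ∣ H.natAbs := by
    apply Finset.prod_primes_dvd
    · intro p hp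
      exact (hs p hp).1.prime
    · intro p hp
      have := (hs p hp).2.2
      exact Int.natCast_dvd.mp this
  have h2 : P ^ s.card ≤ ∏ p ∈ s, p := by
    rw [← Finset.prod_const]
    exact Finset.prod_le_prod' fun p hp => (hs p hp).2.1
  have h3 : ∏ p ∈ s, p ≤ H.natAbs := Nat.le_of_dvd (Int.natAbs_pos.mpr hH) h1
  have h4 : P ^ s.card < P ^ (c + 1) := lt_of_le_of_lt (h2.trans h3) hb
  have h5 := (Nat.pow_lt_pow_iff_right hP).mp h4
  omega

/-- The numerator of `∑ g x / x`. -/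
def num (U : Finset ℕ) (g : ℕ → ℤ) : ℤ := ∑ x ∈ U, g x * ∏ y ∈ U.erase x, (y : ℤ)

theorem num_ne_zero {P h : ℕ} {U : Finset ℕ} {g : ℕ → ℤ} (hU : ∀ x ∈ U, x.Prime ∧ P ≤ x)
    (hg : ∀ x ∈ U, |g x| ≤ h) (hh : h < P) (hne : ∃ x ∈ U, g x ≠ 0) : num U g ≠ 0 := by
  obtain ⟨x, hx, hgx⟩ := hne
  intro h0
  have hxp : Prime (x : ℤ) := Nat.prime_iff_prime_int.mp (hU x hx).1
  have h1 : (x : ℤ) ∣ g x * ∏ y ∈ U.erase x, (y : ℤ) := by
    have h2 : num U g = g x * ∏ y ∈ U.erase x, (y : ℤ) +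
        ∑ z ∈ U.erase x, g z * ∏ y ∈ U.erase z, (y : ℤ) := by
      rw [num, ← Finset.add_sum_erase U _ hx]
    have h3 : (x : ℤ) ∣ ∑ z ∈ U.erase x, g z * ∏ y ∈ U.erase z, (y : ℤ) := by
      apply Finset.dvd_sum
      intro z hz
      apply Dvd.dvd.mul_left
      apply Finset.dvd_prod_of_mem (fun y : ℕ => (y : ℤ))
      rw [Finset.mem_erase] at hz ⊢
      exact ⟨fun e => hz.1 e.symm, hx⟩
    rw [h0] at h2
    have h4 : g x * ∏ y ∈ U.erase x, (y : ℤ) =
        - ∑ z ∈ U.erase x, g z * ∏ y ∈ U.erase z, (y : ℤ) := by linarith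
    rw [h4]
    exact h3.neg_right
  rcases hxp.dvd_or_dvd h1 with h2 | h2
  · have h3 := Int.le_of_dvd (abs_pos.mpr hgx) ((dvd_abs _ _).mpr h2)
    have h4 := hg x hx
    have h5 := (hU x hx).2
    have : (x : ℤ) ≤ h := h3.trans h4
    have : x ≤ h := by exact_mod_cast this
    omega
  · rw [Prime.dvd_finset_prod_iff hxp] at h2
    obtain ⟨y, hy, hxy⟩ := h2
    rw [Finset.mem_erase] at hy
    have h3 : x ∣ y := by exact_mod_cast hxy
    have h4 := (Nat.prime_dvd_prime_iff_eq (hU x hx).1 (hU y hy.2).1).mp h3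
    exact hy.1 h4.symm

theorem num_natAbs_lt {P h m : ℕ} {U : Finset ℕ} {g : ℕ → ℤ} (hU : ∀ x ∈ U, x ≤ 2 * P)
    (hg : ∀ x ∈ U, |g x| ≤ h) (hh : h < P) (hm : 1 ≤ m) (hcard : U.card ≤ 2 * m)
    (hP : m * 4 ^ m < P) : (num U g).natAbs < P ^ (2 * m + 1) := by
  have hPpos : 0 < P := by omega
  have h1 : |num U g| ≤ ∑ x ∈ U, (h : ℤ) * (2 * P : ℕ) ^ (2 * m - 1) := by
    rw [num]
    refine (Finset.abs_sum_le_sum_abs _ _).trans ?_
    apply Finset.sum_le_sum
    intro x hx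
    rw [abs_mul]
    apply mul_le_mul (hg x hx) _ (abs_nonneg _) (by positivity)
    rw [Finset.abs_prod]
    calc ∏ y ∈ U.erase x, |(y : ℤ)| ≤ ∏ y ∈ U.erase x, ((2 * P : ℕ) : ℤ) := by
          apply Finset.prod_le_prod
          · intro y hy
            exact abs_nonneg _
          · intro y hy
            rw [Nat.abs_cast]
            exact_mod_cast hU y (Finset.mem_of_mem_erase hy)
      _ = ((2 * P : ℕ) : ℤ) ^ (U.card - 1) := by
          rw [Finset.prod_const, Finset.card_erase_of_mem hx]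
      _ ≤ ((2 * P : ℕ) : ℤ) ^ (2 * m - 1) := by
          apply pow_le_pow_right₀
          · exact_mod_cast (by omega : 1 ≤ 2 * P)
          · omega
  rw [Finset.sum_const, nsmul_eq_mul] at h1
  have h2 : |num U g| ≤ (2 * m : ℕ) * ((h : ℤ) * (2 * P : ℕ) ^ (2 * m - 1)) := by
    refine h1.trans ?_
    apply mul_le_mul_of_nonneg_right _ (by positivity)
    exact_mod_cast hcard
  have h3 : ((num U g).natAbs : ℤ) ≤ ((2 * m * (h * (2 * P) ^ (2 * m - 1)) : ℕ) : ℤ) := by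
    rw [Int.natCast_natAbs]
    push_cast at h2 ⊢
    exact h2
  have h4 : (num U g).natAbs ≤ 2 * m * (h * (2 * P) ^ (2 * m - 1)) := by exact_mod_cast h3
  refine lt_of_le_of_lt h4 ?_
  calc 2 * m * (h * (2 * P) ^ (2 * m - 1)) ≤ 2 * m * (P * (2 * P) ^ (2 * m - 1)) := by
        gcongr
    _ = (m * 4 ^ m) * P ^ (2 * m) := by
        obtain ⟨k, rfl⟩ : ∃ k, m = k + 1 := ⟨m - 1, by omega⟩
        have e1 : 2 * (k + 1) - 1 = 2 * k + 1 := by omega
        rw [e1, mul_pow, show (4 : ℕ) = 2 ^ 2 by norm_num, ← pow_mul]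
        ring
    _ < P * P ^ (2 * m) := by
        apply Nat.mul_lt_mul_of_pos_right hP
        positivity
    _ = P ^ (2 * m + 1) := by ring

/-- A linear relation between the indices forces divisibility of the numerator. -/
theorem dvd_num {U : Finset ℕ} {g k : ℕ → ℤ} {p : ℕ} (hp : p.Prime) {D : ℤ}
    (hD : ¬ (p : ℤ) ∣ D) (hk : ∀ x ∈ U, (p : ℤ) ∣ k x * x - D)
    (hrel : ∑ x ∈ U, g x * k x = 0) : (p : ℤ) ∣ num U g := by
  have hpp : Prime (p : ℤ) := Nat.prime_iff_prime_int.mp hp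
  have h1 : (p : ℤ) ∣ D * num U g - (∏ y ∈ U, (y : ℤ)) * ∑ x ∈ U, g x * k x := by
    rw [num, Finset.mul_sum, Finset.mul_sum, ← Finset.sum_sub_distrib]
    apply Finset.dvd_sum
    intro x hx
    have h2 : D * (g x * ∏ y ∈ U.erase x, (y : ℤ)) - (∏ y ∈ U, (y : ℤ)) * (g x * k x) =
        -((k x * x - D) * (g x * ∏ y ∈ U.erase x, (y : ℤ))) := by
      rw [← Finset.mul_prod_erase U (fun y => (y : ℤ)) hx]
      ring
    rw [h2]
    exact ((hk x hx).mul_right _).neg_right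
  rw [hrel, mul_zero, sub_zero] at h1
  exact (hpp.dvd_or_dvd h1).resolve_left hD

/-- Collisions of a map into a small set. -/
theorem collisions {α β : Type*} [DecidableEq α] [DecidableEq β] (s : Finset α) (t : Finset β)
    (v : α → β) (hv : ∀ x ∈ s, v x ∈ t) :
    s.card ^ 2 ≤ t.card * ((s ×ˢ s).filter fun z => v z.1 = v z.2).card := by
  have h1 : s.card = ∑ b ∈ t, (s.filter fun x => v x = b).card :=
    Finset.card_eq_sum_card_fiberwise (fun x hx => hv x hx)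
  have h2 : ((s ×ˢ s).filter fun z => v z.1 = v z.2).card =
      ∑ b ∈ t, (s.filter fun x => v x = b).card ^ 2 := by
    have h3 : ((s ×ˢ s).filter fun z => v z.1 = v z.2).card = ∑ b ∈ t,
        (((s ×ˢ s).filter fun z => v z.1 = v z.2).filter fun z => v z.1 = b).card := by
      apply Finset.card_eq_sum_card_fiberwise
      intro z hz
      simp only [Finset.coe_filter, Finset.mem_product, Set.mem_setOf_eq] at hz
      exact hv _ hz.1.1
    rw [h3]
    apply Finset.sum_congr rfl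
    intro b hb
    rw [sq, ← Finset.card_product]
    congr 1
    ext ⟨x, y⟩
    simp only [Finset.mem_filter, Finset.mem_product]
    constructor
    · rintro ⟨⟨⟨hx, hy⟩, he⟩, hb'⟩
      exact ⟨⟨hx, hb'⟩, ⟨hy, he ▸ hb'⟩⟩
    · rintro ⟨⟨hx, hb1⟩, ⟨hy, hb2⟩⟩
      exact ⟨⟨⟨hx, hy⟩, hb1.trans hb2.symm⟩, hb1⟩
  rw [h1, h2]
  exact sq_sum_le_card_mul_sum_sq

end Pool.Agent.helper79.Cov
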