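import Pool.Agent.helper79.Cov1

/-! Formal sums of `m` concurrent moduli with coefficients in `[1,h]`. -/

namespace Pool.Agent.helper79.Cov

open Finset

open scoped Classical in
/-- Formal sums: an `m`-subset of `B` with coefficients in `[1,h]`. -/
noncomputable def FS (m h : ℕ) (B : Finset ℕ) : Finset (Σ J : Finset ℕ, ((a : ℕ) → a ∈ J → ℕ)) :=
  (B.powersetCard m).sigma (fun J => J.pi (fun _ => Finset.Icc 1 h))

open scoped Classical in
/-- Coefficient function of a formal sum. -/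
noncomputable def coef (f : Σ J : Finset ℕ, ((a : ℕ) → a ∈ J → ℕ)) (x : ℕ) : ℤ :=
  if hx : x ∈ f.1 then (f.2 x hx : ℤ) else 0

/-- Value of a formal sum on an index function. -/
noncomputable def val (k : ℕ → ℤ) (f : Σ J : Finset ℕ, ((a : ℕ) → a ∈ J → ℕ)) : ℤ :=
  ∑ x ∈ f.1, coef f x * k x

theorem mem_FS {m h : ℕ} {B : Finset ℕ} {f : Σ J : Finset ℕ, ((a : ℕ) → a ∈ J → ℕ)} :
    f ∈ FS m h B ↔ (f.1 ⊆ B ∧ f.1.card = m) ∧ ∀ a (ha : a ∈ f.1), 1 ≤ f.2 a ha ∧ f.2 a ha ≤ h := by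
  simp only [FS, Finset.mem_sigma, Finset.mem_powersetCard, Finset.mem_pi, Finset.mem_Icc]

theorem card_FS (m h : ℕ) (B : Finset ℕ) : (FS m h B).card = B.card.choose m * h ^ m := by
  rw [FS, Finset.card_sigma]
  have : ∀ J ∈ B.powersetCard m, (J.pi (fun _ => Finset.Icc 1 h)).card = h ^ m := by
    intro J hJ
    rw [Finset.card_pi]
    simp only [Nat.card_Icc, Nat.add_sub_cancel, Finset.prod_const]
    rw [(Finset.mem_powersetCard.mp hJ).2]
  rw [Finset.sum_congr rfl this, Finset.sum_const, Finset.card_powersetCard, smul_eq_mul]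

theorem FS_mono {m h : ℕ} {A B : Finset ℕ} (hAB : A ⊆ B) : FS m h A ⊆ FS m h B := by
  intro f hf
  rw [mem_FS] at hf ⊢
  exact ⟨⟨hf.1.1.trans hAB, hf.1.2⟩, hf.2⟩

theorem coef_nonneg (f : Σ J : Finset ℕ, ((a : ℕ) → a ∈ J → ℕ)) (x : ℕ) : 0 ≤ coef f x := by
  unfold coef
  split_ifs
  · positivity
  · exact le_rfl

theorem coef_le {m h : ℕ} {B : Finset ℕ} {f : Σ J : Finset ℕ, ((a : ℕ) → a ∈ J → ℕ)}
    (hf : f ∈ FS m h B) (x : ℕ) : coef f x ≤ h := by
  unfold coef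
  split_ifs with hx
  · exact_mod_cast ((mem_FS.mp hf).2 x hx).2
  · positivity

theorem coef_eq_zero {f : Σ J : Finset ℕ, ((a : ℕ) → a ∈ J → ℕ)} {x : ℕ} (hx : x ∉ f.1) :
    coef f x = 0 := by
  unfold coef
  rw [dif_neg hx]

theorem mem_iff_coef {m h : ℕ} {B : Finset ℕ} {f : Σ J : Finset ℕ, ((a : ℕ) → a ∈ J → ℕ)}
    (hf : f ∈ FS m h B) (x : ℕ) : x ∈ f.1 ↔ coef f x ≠ 0 := by
  constructor
  · intro hx
    unfold coef
    rw [dif_pos hx]
    have := ((mem_FS.mp hf).2 x hx).1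
    exact_mod_cast (by omega : f.2 x hx ≠ 0)
  · intro h0
    by_contra hx
    exact h0 (coef_eq_zero hx)

theorem coef_inj {m h : ℕ} {B : Finset ℕ} {f f' : Σ J : Finset ℕ, ((a : ℕ) → a ∈ J → ℕ)}
    (hf : f ∈ FS m h B) (hf' : f' ∈ FS m h B) (he : ∀ x, coef f x = coef f' x) : f = f' := by
  have h1 : f.1 = f'.1 := by
    ext x
    rw [mem_iff_coef hf, mem_iff_coef hf', he x]
  obtain ⟨J, g⟩ := f
  obtain ⟨J', g'⟩ := f'
  simp only at h1
  subst h1
  congr 1
  ext a ha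
  have h2 := he a
  unfold coef at h2
  rw [dif_pos ha, dif_pos ha] at h2
  exact_mod_cast h2

theorem val_le {m h K : ℕ} {B : Finset ℕ} {k : ℕ → ℤ}
    {f : Σ J : Finset ℕ, ((a : ℕ) → a ∈ J → ℕ)} (hf : f ∈ FS m h B)
    (hk : ∀ x ∈ B, |k x| ≤ K) : |val k f| ≤ ((m * (h * K) : ℕ) : ℤ) := by
  unfold val
  refine (Finset.abs_sum_le_sum_abs _ _).trans ?_
  have h1 : ∑ x ∈ f.1, |coef f x * k x| ≤ ∑ x ∈ f.1, ((h * K : ℕ) : ℤ) := by
    apply Finset.sum_le_sum
    intro x hx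
    rw [abs_mul, abs_of_nonneg (coef_nonneg f x)]
    push_cast
    exact mul_le_mul (coef_le hf x) (hk x ((mem_FS.mp hf).1.1 hx)) (abs_nonneg _) (by positivity)
  rw [Finset.sum_const, (mem_FS.mp hf).1.2, nsmul_eq_mul] at h1
  push_cast at h1 ⊢
  exact h1

theorem val_sub (k : ℕ → ℤ) (f f' : Σ J : Finset ℕ, ((a : ℕ) → a ∈ J → ℕ)) :
    ∑ x ∈ f.1 ∪ f'.1, (coef f x - coef f' x) * k x = val k f - val k f' := by
  have h1 : ∑ x ∈ f.1 ∪ f'.1, coef f x * k x = val k f := by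
    unfold val
    symm
    apply Finset.sum_subset Finset.subset_union_left
    intro x _ hx
    rw [coef_eq_zero hx, zero_mul]
  have h2 : ∑ x ∈ f.1 ∪ f'.1, coef f' x * k x = val k f' := by
    unfold val
    symm
    apply Finset.sum_subset Finset.subset_union_right
    intro x _ hx
    rw [coef_eq_zero hx, zero_mul]
  rw [← h1, ← h2, ← Finset.sum_sub_distrib]
  apply Finset.sum_congr rfl
  intro x _
  ring

open scoped Classical in
/-- Nontrivial relations. -/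
noncomputable def rel (m h : ℕ) (A : Finset ℕ) (k : ℕ → ℤ) :
    Finset ((Σ J : Finset ℕ, ((a : ℕ) → a ∈ J → ℕ)) × (Σ J : Finset ℕ, ((a : ℕ) → a ∈ J → ℕ))) :=
  (FS m h A ×ˢ FS m h A).filter fun z => z.1 ≠ z.2 ∧ val k z.1 = val k z.2

theorem relations_le {P m h : ℕ} {B Qs : Finset ℕ} {Q : ℕ → Finset ℕ} {k : ℕ → ℕ → ℤ}
    {D : ℕ → ℤ} (hm : 1 ≤ m) (hP : m * 4 ^ m < P) (hh : h < P)
    (hB : ∀ x ∈ B, x.Prime ∧ P ≤ x ∧ x ≤ 2 * P)
    (hQs : ∀ p ∈ Qs, p.Prime ∧ P ≤ p ∧ Q p ⊆ B ∧ ¬ (p : ℤ) ∣ D p ∧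
      ∀ x ∈ Q p, (p : ℤ) ∣ k p x * x - D p) :
    ∑ p ∈ Qs, (rel m h (Q p) (k p)).card ≤ 2 * m * (FS m h B).card ^ 2 := by
  classical
  have h1 : ∀ p ∈ Qs, (rel m h (Q p) (k p)).card =
      ∑ z ∈ FS m h B ×ˢ FS m h B, if z ∈ rel m h (Q p) (k p) then 1 else 0 := by
    intro p hp
    rw [← Finset.card_filter]
    congr 1
    ext z
    simp only [Finset.mem_filter]
    constructor
    · intro hz
      refine ⟨?_, hz⟩
      simp only [rel, Finset.mem_filter, Finset.mem_product] at hz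
      exact Finset.mem_product.mpr ⟨FS_mono (hQs p hp).2.2.1 hz.1.1,
        FS_mono (hQs p hp).2.2.1 hz.1.2⟩
    · exact fun hz => hz.2
  rw [Finset.sum_congr rfl h1, Finset.sum_comm]
  have h2 : ∀ z ∈ FS m h B ×ˢ FS m h B,
      (∑ p ∈ Qs, if z ∈ rel m h (Q p) (k p) then 1 else 0) ≤ 2 * m := by
    intro z hz
    rw [← Finset.card_filter]
    by_cases hz0 : z.1 = z.2
    · have : Qs.filter (fun p => z ∈ rel m h (Q p) (k p)) = ∅ := by
        apply Finset.filter_eq_empty_iff.mpr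
        intro p _ hc
        simp only [rel, Finset.mem_filter] at hc
        exact hc.2.1 hz0
      rw [this]
      simp
    rw [Finset.mem_product] at hz
    set U := z.1.1 ∪ z.2.1 with hU
    set g : ℕ → ℤ := fun x => coef z.1 x - coef z.2 x with hg
    have hUB : ∀ x ∈ U, x ∈ B := by
      intro x hx
      rw [hU, Finset.mem_union] at hx
      rcases hx with hx | hx
      · exact (mem_FS.mp hz.1).1.1 hx
      · exact (mem_FS.mp hz.2).1.1 hx
    have hgb : ∀ x ∈ U, |g x| ≤ h := by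
      intro x _
      rw [abs_le]
      have a1 := coef_nonneg z.1 x
      have a2 := coef_nonneg z.2 x
      have a3 := coef_le hz.1 x
      have a4 := coef_le hz.2 x
      constructor <;> simp only [hg] <;> linarith
    have hne : ∃ x ∈ U, g x ≠ 0 := by
      by_contra hcon
      push Not at hcon
      apply hz0
      apply coef_inj hz.1 hz.2
      intro x
      by_cases hx : x ∈ U
      · have := hcon x hx
        simp only [hg] at this
        linarith
      · rw [hU, Finset.mem_union, not_or] at hx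
        rw [coef_eq_zero hx.1, coef_eq_zero hx.2]
    have hcard : U.card ≤ 2 * m := by
      calc U.card ≤ z.1.1.card + z.2.1.card := Finset.card_union_le _ _
        _ = 2 * m := by rw [(mem_FS.mp hz.1).1.2, (mem_FS.mp hz.2).1.2]; ring
    have hPone : 1 < P := by
      have : 1 ≤ m * 4 ^ m := Nat.mul_pos hm (by positivity)
      omega
    apply few_prime_factors hPone (num_ne_zero (fun x hx => ⟨(hB x (hUB x hx)).1,
      (hB x (hUB x hx)).2.1⟩) hgb hh hne)
      (num_natAbs_lt (fun x hx => (hB x (hUB x hx)).2.2) hgb hh hm hcard hP)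
    intro p hp
    rw [Finset.mem_filter] at hp
    obtain ⟨hp1, hp2⟩ := hp
    obtain ⟨q1, q2, q3, q4, q5⟩ := hQs p hp1
    refine ⟨q1, q2, ?_⟩
    simp only [rel, Finset.mem_filter, Finset.mem_product] at hp2
    obtain ⟨⟨f1, f2⟩, _, f3⟩ := hp2
    apply dvd_num q1 q4 (k := k p)
    · intro x hx
      rw [hU, Finset.mem_union] at hx
      apply q5
      rcases hx with hx | hx
      · exact (mem_FS.mp f1).1.1 hx
      · exact (mem_FS.mp f2).1.1 hx
    · rw [val_sub, f3, sub_self]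
  calc ∑ z ∈ FS m h B ×ˢ FS m h B, (∑ p ∈ Qs, if z ∈ rel m h (Q p) (k p) then 1 else 0)
      ≤ ∑ z ∈ FS m h B ×ˢ FS m h B, 2 * m := Finset.sum_le_sum h2
    _ = 2 * m * (FS m h B).card ^ 2 := by
        rw [Finset.sum_const, Finset.card_product, smul_eq_mul]
        ring

/-- If there are many formal sums there are many nontrivial relations. -/
theorem card_sq_le {m h K : ℕ} {A : Finset ℕ} {k : ℕ → ℤ} (hk : ∀ x ∈ A, |k x| ≤ K)
    (hbig : 2 * (2 * (m * (h * K)) + 1) ≤ (FS m h A).card) :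
    (FS m h A).card ^ 2 ≤ 2 * (2 * (m * (h * K)) + 1) * (rel m h A k).card := by
  classical
  set M := m * (h * K) with hM
  have h1 := collisions (FS m h A) (Finset.Icc (-(M : ℤ)) M) (val k) (by
    intro f hf
    rw [Finset.mem_Icc, ← abs_le]
    exact val_le hf hk)
  have h2 : (Finset.Icc (-(M : ℤ)) M).card = 2 * M + 1 := by
    rw [Int.card_Icc]
    omega
  rw [h2] at h1
  have h3 : ((FS m h A ×ˢ FS m h A).filter fun z => val k z.1 = val k z.2).card ≤
      (rel m h A k).card + (FS m h A).card := by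
    have h4 : ((FS m h A ×ˢ FS m h A).filter fun z => val k z.1 = val k z.2) ⊆
        rel m h A k ∪ (FS m h A).image (fun f => (f, f)) := by
      intro z hz
      rw [Finset.mem_filter, Finset.mem_product] at hz
      rw [Finset.mem_union]
      by_cases he : z.1 = z.2
      · right
        rw [Finset.mem_image]
        exact ⟨z.1, hz.1.1, Prod.ext rfl he⟩
      · left
        rw [rel, Finset.mem_filter, Finset.mem_product]
        exact ⟨hz.1, he, hz.2⟩
    refine (Finset.card_le_card h4).trans ((Finset.card_union_le _ _).trans ?_)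
    exact Nat.add_le_add_left Finset.card_image_le _
  set s := (FS m h A).card with hs
  set r := (rel m h A k).card with hr
  have h5 : s ^ 2 ≤ (2 * M + 1) * (r + s) := h1.trans (Nat.mul_le_mul_left _ h3)
  have h6 : 2 * ((2 * M + 1) * s) ≤ s ^ 2 := by
    rw [sq]
    calc 2 * ((2 * M + 1) * s) = (2 * (2 * M + 1)) * s := by ring
      _ ≤ s * s := Nat.mul_le_mul_right _ hbig
  nlinarith

/-- Sum over the heavy primes. -/
theorem heavy_sum {P m h K : ℕ} {B Qs : Finset ℕ} {Q : ℕ → Finset ℕ} {k : ℕ → ℕ → ℤ}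
    {D : ℕ → ℤ} (hm : 1 ≤ m) (hP : m * 4 ^ m < P) (hh : h < P) (hh0 : 1 ≤ h)
    (hB : ∀ x ∈ B, x.Prime ∧ P ≤ x ∧ x ≤ 2 * P)
    (hQs : ∀ p ∈ Qs, p.Prime ∧ P ≤ p ∧ Q p ⊆ B ∧ ¬ (p : ℤ) ∣ D p ∧
      ∀ x ∈ Q p, (p : ℤ) ∣ k p x * x - D p)
    (hk : ∀ p ∈ Qs, ∀ x ∈ Q p, |k p x| ≤ K)
    (hbig : ∀ p ∈ Qs, 2 * (2 * (m * (h * K)) + 1) ≤ (Q p).card.choose m * h ^ m) :
    ∑ p ∈ Qs, (Q p).card.choose m ^ 2 ≤
      4 * m * (2 * (m * (h * K)) + 1) * B.card.choose m ^ 2 := by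
  have h1 := relations_le hm hP hh hB hQs
  have h2 : ∑ p ∈ Qs, (FS m h (Q p)).card ^ 2 ≤
      ∑ p ∈ Qs, 2 * (2 * (m * (h * K)) + 1) * (rel m h (Q p) (k p)).card := by
    apply Finset.sum_le_sum
    intro p hp
    apply card_sq_le (hk p hp)
    rw [card_FS]
    exact hbig p hp
  rw [← Finset.mul_sum] at h2
  have h3 : ∑ p ∈ Qs, (FS m h (Q p)).card ^ 2 ≤
      2 * (2 * (m * (h * K)) + 1) * (2 * m * (FS m h B).card ^ 2) :=
    h2.trans (Nat.mul_le_mul_left _ h1)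
  simp only [card_FS, mul_pow] at h3
  rw [← Finset.sum_mul] at h3
  have hpos : 0 < (h ^ m) ^ 2 := by positivity
  apply Nat.le_of_mul_le_mul_right _ hpos
  refine h3.trans (le_of_eq ?_)
  ring

end Pool.Agent.helper79.Cov
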