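import Pool.Agent.helper79.Cov2

/-! From the relation count to a bound for fans. -/

namespace Pool.Agent.helper79.Cov

open Finset

/-- The average number of moduli of a concurrent family met by a prime is small. -/
theorem fan_bound {P m h K π : ℕ} {B Qs : Finset ℕ} {Q : ℕ → Finset ℕ} {k : ℕ → ℕ → ℤ}
    {D : ℕ → ℤ} {A τ δ : ℝ} (hm : 1 ≤ m) (hP : m * 4 ^ m < P) (hh : h < P) (hh0 : 1 ≤ h)
    (hB : ∀ x ∈ B, x.Prime ∧ P ≤ x ∧ x ≤ 2 * P)
    (hQs : ∀ p ∈ Qs, p.Prime ∧ P ≤ p ∧ Q p ⊆ B ∧ ¬ (p : ℤ) ∣ D p ∧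
      ∀ x ∈ Q p, (p : ℤ) ∣ k p x * x - D p)
    (hk : ∀ p ∈ Qs, ∀ x ∈ Q p, |k p x| ≤ K) (hπ : Qs.card ≤ π)
    (hA : 0 ≤ A) (hτ0 : 0 ≤ τ) (hδ0 : 0 ≤ δ)
    (hτ : ∀ T : ℕ, τ < T → 2 * (2 * (m * (h * K)) + 1) ≤ T.choose m * h ^ m ∧
      (T : ℝ) ^ m ≤ A * (T.choose m : ℝ))
    (hδ : A ^ 2 * (4 * m * (2 * (m * (h * K)) + 1) : ℝ) ≤ π * δ ^ (2 * m)) :
    ∑ p ∈ Qs, ((Q p).card : ℝ) ≤ π * τ + π * δ * B.card := by
  classical
  set Hs := Qs.filter (fun p => τ < ((Q p).card : ℝ)) with hHs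
  have hsplit : ∑ p ∈ Qs, ((Q p).card : ℝ) ≤ π * τ + ∑ p ∈ Hs, ((Q p).card : ℝ) := by
    rw [← Finset.sum_filter_add_sum_filter_not Qs (fun p => τ < ((Q p).card : ℝ)), add_comm]
    apply add_le_add _ le_rfl
    have h1 : ∑ p ∈ Qs.filter (fun p => ¬ τ < ((Q p).card : ℝ)), ((Q p).card : ℝ) ≤
        ∑ p ∈ Qs.filter (fun p => ¬ τ < ((Q p).card : ℝ)), τ := by
      apply Finset.sum_le_sum
      intro p hp
      exact not_lt.mp (Finset.mem_filter.mp hp).2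
    refine h1.trans ?_
    rw [Finset.sum_const, nsmul_eq_mul]
    apply mul_le_mul_of_nonneg_right _ hτ0
    exact_mod_cast (Finset.card_filter_le _ _).trans hπ
  refine hsplit.trans (add_le_add le_rfl ?_)
  have hHQ : ∀ p ∈ Hs, p ∈ Qs := fun p hp => (Finset.mem_filter.mp hp).1
  have hheavy := heavy_sum (K := K) (B := B) (Qs := Hs) (Q := Q) (k := k) (D := D) hm hP hh hh0 hB
    (fun p hp => hQs p (hHQ p hp)) (fun p hp => hk p (hHQ p hp))
    (fun p hp => (hτ _ (Finset.mem_filter.mp hp).2).1)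
  have hheavyR : ∑ p ∈ Hs, (((Q p).card.choose m : ℕ) : ℝ) ^ 2 ≤
      (4 * m * (2 * (m * (h * K)) + 1) : ℝ) * ((B.card.choose m : ℕ) : ℝ) ^ 2 := by
    exact_mod_cast hheavy
  set sh := ∑ p ∈ Hs, ((Q p).card : ℝ) with hsh
  have hsh0 : 0 ≤ sh := Finset.sum_nonneg fun _ _ => by positivity
  obtain ⟨j, hj⟩ : ∃ j, 2 * m = j + 1 := ⟨2 * m - 1, by omega⟩
  have h1 : sh ^ (2 * m) ≤ (π : ℝ) ^ j * ∑ p ∈ Hs, ((Q p).card : ℝ) ^ (2 * m) := by
    rw [hj]
    refine (pow_sum_le_card_mul_sum_pow (fun i _ => by positivity) j).trans ?_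
    apply mul_le_mul_of_nonneg_right _ (Finset.sum_nonneg fun _ _ => by positivity)
    apply pow_le_pow_left₀ (by positivity)
    exact_mod_cast (Finset.card_filter_le _ _).trans hπ
  have h2 : ∑ p ∈ Hs, ((Q p).card : ℝ) ^ (2 * m) ≤
      A ^ 2 * ∑ p ∈ Hs, (((Q p).card.choose m : ℕ) : ℝ) ^ 2 := by
    rw [Finset.mul_sum]
    apply Finset.sum_le_sum
    intro p hp
    have h3 := (hτ _ (Finset.mem_filter.mp hp).2).2
    calc ((Q p).card : ℝ) ^ (2 * m) = (((Q p).card : ℝ) ^ m) ^ 2 := by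
          rw [← pow_mul, mul_comm m 2]
      _ ≤ (A * ((Q p).card.choose m : ℝ)) ^ 2 := by
          apply pow_le_pow_left₀ (by positivity) h3
      _ = A ^ 2 * (((Q p).card.choose m : ℕ) : ℝ) ^ 2 := by ring
  have h4 : ((B.card.choose m : ℕ) : ℝ) ^ 2 ≤ (B.card : ℝ) ^ (2 * m) := by
    have h5 : ((B.card.choose m : ℕ) : ℝ) ≤ (B.card : ℝ) ^ m := by
      exact_mod_cast Nat.choose_le_pow _ _
    calc ((B.card.choose m : ℕ) : ℝ) ^ 2 ≤ ((B.card : ℝ) ^ m) ^ 2 := by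
          apply pow_le_pow_left₀ (by positivity) h5
      _ = (B.card : ℝ) ^ (2 * m) := by rw [← pow_mul, mul_comm m 2]
  have h6 : sh ^ (2 * m) ≤ (π * δ * B.card) ^ (2 * m) := by
    calc sh ^ (2 * m) ≤ (π : ℝ) ^ j * (A ^ 2 * ((4 * m * (2 * (m * (h * K)) + 1) : ℝ) *
          (B.card : ℝ) ^ (2 * m))) := by
          refine h1.trans (mul_le_mul_of_nonneg_left ?_ (by positivity))
          refine h2.trans (mul_le_mul_of_nonneg_left ?_ (by positivity))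
          refine hheavyR.trans (mul_le_mul_of_nonneg_left h4 (by positivity))
      _ = (π : ℝ) ^ j * (A ^ 2 * (4 * m * (2 * (m * (h * K)) + 1) : ℝ)) *
          (B.card : ℝ) ^ (2 * m) := by ring
      _ ≤ (π : ℝ) ^ j * (π * δ ^ (2 * m)) * (B.card : ℝ) ^ (2 * m) := by
          gcongr
      _ = (π * δ * B.card) ^ (2 * m) := by
          rw [mul_pow, mul_pow]
          have : (π : ℝ) ^ (2 * m) = (π : ℝ) ^ j * π := by rw [hj, pow_succ]
          rw [this]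
          ring
  exact (pow_le_pow_iff_left₀ hsh0 (by positivity) (by omega)).mp h6

/-! ### The covering structure -/

/-- The elements of the chosen class modulo `p` in `[1,N]`. -/
def cls (N : ℕ) (a : ℕ → ℕ) (p : ℕ) : Finset ℕ := (Finset.Icc 1 N).filter (fun n => n ≡ a p [MOD p])

/-- The moduli whose class contains `n`. -/
def bush (N : ℕ) (a : ℕ → ℕ) (Ps : Finset ℕ) (n : ℕ) : Finset ℕ :=
  Ps.filter (fun p => n ∈ cls N a p)

/-- The covered set. -/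
def cov (N : ℕ) (a : ℕ → ℕ) (Ps : Finset ℕ) : Finset ℕ :=
  (Finset.Icc 1 N).filter (fun n => ∃ p ∈ Ps, n ≡ a p [MOD p])

/-- The moduli through `n` whose class meets the class of `p`. -/
def fan (N : ℕ) (a : ℕ → ℕ) (Ps : Finset ℕ) (n p : ℕ) : Finset ℕ :=
  (bush N a Ps n).filter (fun q => (cls N a p ∩ cls N a q).Nonempty)

theorem mem_cls {N : ℕ} {a : ℕ → ℕ} {p n : ℕ} :
    n ∈ cls N a p ↔ (1 ≤ n ∧ n ≤ N) ∧ n ≡ a p [MOD p] := by
  simp [cls]

theorem mem_bush {N : ℕ} {a : ℕ → ℕ} {Ps : Finset ℕ} {n p : ℕ} :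
    p ∈ bush N a Ps n ↔ p ∈ Ps ∧ n ∈ cls N a p := by
  simp [bush]

theorem mem_cov {N : ℕ} {a : ℕ → ℕ} {Ps : Finset ℕ} {n : ℕ} :
    n ∈ cov N a Ps ↔ ∃ p ∈ Ps, n ∈ cls N a p := by
  simp only [cov, Finset.mem_filter, mem_cls, Finset.mem_Icc]
  constructor
  · rintro ⟨h1, p, hp, h2⟩
    exact ⟨p, hp, h1, h2⟩
  · rintro ⟨p, hp, h1, h2⟩
    exact ⟨h1, p, hp, h2⟩

theorem cls_subset_cov {N : ℕ} {a : ℕ → ℕ} {Ps : Finset ℕ} {p : ℕ} (hp : p ∈ Ps) :
    cls N a p ⊆ cov N a Ps := fun _ hn => mem_cov.mpr ⟨p, hp, hn⟩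

theorem sub_dvd {N : ℕ} {a : ℕ → ℕ} {p n n' : ℕ} (h1 : n ∈ cls N a p) (h2 : n' ∈ cls N a p) :
    (p : ℤ) ∣ (n' : ℤ) - n := by
  have h3 : n ≡ n' [MOD p] := (mem_cls.mp h1).2.trans (mem_cls.mp h2).2.symm
  exact (Nat.modEq_iff_dvd.mp h3)

/-- Two different moduli share at most one point. -/
theorem inter_card_le {N P : ℕ} {a : ℕ → ℕ} {p q : ℕ} (hp : p.Prime) (hq : q.Prime)
    (hpq : p ≠ q) (hpP : P ≤ p) (hqP : P ≤ q) (hN : N ≤ P ^ 2) :
    (cls N a p ∩ cls N a q).card ≤ 1 := by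
  rw [Finset.card_le_one]
  intro n hn n' hn'
  rw [Finset.mem_inter] at hn hn'
  have h1 := sub_dvd hn.1 hn'.1
  have h2 := sub_dvd hn.2 hn'.2
  have hcop : IsCoprime (p : ℤ) (q : ℤ) := by
    rw [Nat.isCoprime_iff_coprime]
    exact (Nat.coprime_primes hp hq).mpr hpq
  have h3 : (p : ℤ) * q ∣ (n' : ℤ) - n := hcop.mul_dvd h1 h2
  have h4 : |(n' : ℤ) - n| < p * q := by
    have a1 := (mem_cls.mp hn.1).1
    have a2 := (mem_cls.mp hn'.1).1
    have a3 : P ^ 2 ≤ p * q := by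
      rw [sq]
      exact Nat.mul_le_mul hpP hqP
    have a4 : (N : ℤ) ≤ p * q := by exact_mod_cast hN.trans a3
    have a5 : (1 : ℤ) ≤ n := by exact_mod_cast a1.1
    have a6 : (1 : ℤ) ≤ n' := by exact_mod_cast a2.1
    have a7 : (n : ℤ) ≤ N := by exact_mod_cast a1.2
    have a8 : (n' : ℤ) ≤ N := by exact_mod_cast a2.2
    rw [abs_lt]
    constructor <;> linarith
  have h5 := Int.eq_zero_of_abs_lt_dvd h3 h4
  omega

/-- The bound for the fan of a point, in the covering structure. -/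
theorem fan_sum_le {N P m h K : ℕ} {a : ℕ → ℕ} {Ps : Finset ℕ} {A τ δ : ℝ}
    (hm : 1 ≤ m) (hP : m * 4 ^ m < P) (hh : h < P) (hh0 : 1 ≤ h)
    (hPs : ∀ x ∈ Ps, x.Prime ∧ P ≤ x ∧ x ≤ 2 * P) (hK : N < (K + 1) * P)
    (hA : 0 ≤ A) (hτ0 : 0 ≤ τ) (hδ0 : 0 ≤ δ)
    (hτ : ∀ T : ℕ, τ < T → 2 * (2 * (m * (h * K)) + 1) ≤ T.choose m * h ^ m ∧
      (T : ℝ) ^ m ≤ A * (T.choose m : ℝ))
    (hδ : A ^ 2 * (4 * m * (2 * (m * (h * K)) + 1) : ℝ) ≤ Ps.card * δ ^ (2 * m))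
    {n : ℕ} (hn : 1 ≤ n ∧ n ≤ N) :
    ∑ p ∈ Ps.filter (fun p => n ∉ cls N a p), ((fan N a Ps n p).card : ℝ) ≤
      Ps.card * τ + Ps.card * δ * (bush N a Ps n).card := by
  classical
  -- choose meeting points
  have hex : ∀ p q : ℕ, ∃ z : ℕ, (cls N a p ∩ cls N a q).Nonempty → z ∈ cls N a p ∩ cls N a q := by
    intro p q
    by_cases hne : (cls N a p ∩ cls N a q).Nonempty
    · obtain ⟨z, hz⟩ := hne
      exact ⟨z, fun _ => hz⟩
    · exact ⟨0, fun hc => absurd hc hne⟩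
  choose z hz using hex
  set k : ℕ → ℕ → ℤ := fun p q => ((z p q : ℤ) - n) / q with hkdef
  have hkey : ∀ p, ∀ q ∈ fan N a Ps n p, k p q * q = (z p q : ℤ) - n ∧
      z p q ∈ cls N a p ∧ z p q ∈ cls N a q := by
    intro p q hq
    rw [fan, Finset.mem_filter] at hq
    have h1 := hz p q hq.2
    rw [Finset.mem_inter] at h1
    have h2 := sub_dvd (mem_bush.mp hq.1).2 h1.2
    refine ⟨?_, h1.1, h1.2⟩
    rw [hkdef]
    exact Int.ediv_mul_cancel h2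
  apply fan_bound (D := fun p => (a p : ℤ) - n) (k := k) (K := K) hm hP hh hh0
  · intro x hx
    exact hPs x (mem_bush.mp hx).1
  · intro p hp
    rw [Finset.mem_filter] at hp
    refine ⟨(hPs p hp.1).1, (hPs p hp.1).2.1, Finset.filter_subset _ _, ?_, ?_⟩
    · intro hdvd
      apply hp.2
      rw [mem_cls]
      refine ⟨hn, ?_⟩
      exact Nat.modEq_iff_dvd.mpr hdvd
    · intro q hq
      obtain ⟨h1, h2, h3⟩ := hkey p q hq
      rw [h1]
      have h4 : ((p : ℤ)) ∣ (a p : ℤ) - z p q := Nat.modEq_iff_dvd.mp (mem_cls.mp h2).2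
      have h5 : (z p q : ℤ) - n - ((a p : ℤ) - n) = -((a p : ℤ) - z p q) := by ring
      rw [h5]
      exact h4.neg_right
  · intro p hp q hq
    obtain ⟨h1, h2, h3⟩ := hkey p q hq
    have hqP : P ≤ q := (hPs q (mem_bush.mp (Finset.mem_filter.mp hq).1).1).2.1
    have hzr := (mem_cls.mp h2).1
    have h4 : |k p q| * q < (K + 1) * P := by
      have h5 : |k p q| * q = |(z p q : ℤ) - n| := by
        rw [← h1, abs_mul, Nat.abs_cast]
      rw [h5]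
      have h6 : (N : ℤ) < (K + 1) * P := by exact_mod_cast hK
      have a5 : (1 : ℤ) ≤ n := by exact_mod_cast hn.1
      have a6 : (1 : ℤ) ≤ z p q := by exact_mod_cast hzr.1
      have a7 : (n : ℤ) ≤ N := by exact_mod_cast hn.2
      have a8 : (z p q : ℤ) ≤ N := by exact_mod_cast hzr.2
      have : |(z p q : ℤ) - n| < N := by
        rw [abs_lt]
        constructor <;> linarith
      linarith
    have h7 : |k p q| * P ≤ |k p q| * q := by
      apply mul_le_mul_of_nonneg_left _ (abs_nonneg _)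
      exact_mod_cast hqP
    have hPpos : (0 : ℤ) < P := by
      have : 0 < P := by omega
      exact_mod_cast this
    have h8 : |k p q| < K + 1 := by
      by_contra hcon
      push Not at hcon
      have : ((K : ℤ) + 1) * P ≤ |k p q| * P := mul_le_mul_of_nonneg_right hcon hPpos.le
      linarith
    linarith
  · exact Finset.card_filter_le _ _
  · exact hA
  · exact hτ0
  · exact hδ0
  · exact hτ
  · exact hδ

end Pool.Agent.helper79.Cov
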