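import Pool.Agent.helper79.Cov3

/-! Double counting and the final combinatorial dichotomy. -/

namespace Pool.Agent.helper79.Cov

open Finset

theorem sum_bush {N : ℕ} {a : ℕ → ℕ} {Ps : Finset ℕ} :
    ∑ n ∈ cov N a Ps, (bush N a Ps n).card = ∑ p ∈ Ps, (cls N a p).card := by
  classical
  have h1 : ∀ n ∈ cov N a Ps, (bush N a Ps n).card = ∑ p ∈ Ps, if n ∈ cls N a p then 1 else 0 := by
    intro n _
    rw [bush, Finset.card_filter]
  rw [Finset.sum_congr rfl h1, Finset.sum_comm]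
  apply Finset.sum_congr rfl
  intro p hp
  rw [← Finset.card_filter]
  congr 1
  ext n
  simp only [Finset.mem_filter]
  exact ⟨fun hn => hn.2, fun hn => ⟨cls_subset_cov hp hn, hn⟩⟩

open scoped Classical in
/-- Ordered pairs of distinct moduli whose classes meet. -/
noncomputable def pairs (N : ℕ) (a : ℕ → ℕ) (Ps : Finset ℕ) : Finset (ℕ × ℕ) :=
  (Ps ×ˢ Ps).filter (fun z => z.1 ≠ z.2 ∧ (cls N a z.1 ∩ cls N a z.2).Nonempty)

theorem sum_bush_sq_le {N P : ℕ} {a : ℕ → ℕ} {Ps : Finset ℕ}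
    (hPs : ∀ x ∈ Ps, x.Prime ∧ P ≤ x) (hN : N ≤ P ^ 2) :
    ∑ n ∈ cov N a Ps, (bush N a Ps n).card ^ 2 ≤
      ∑ p ∈ Ps, (cls N a p).card + (pairs N a Ps).card := by
  classical
  have h1 : ∀ n ∈ cov N a Ps, (bush N a Ps n).card ^ 2 =
      ∑ z ∈ Ps ×ˢ Ps, if n ∈ cls N a z.1 ∩ cls N a z.2 then 1 else 0 := by
    intro n _
    rw [← Finset.card_filter, sq, ← Finset.card_product]
    congr 1
    ext z
    simp only [Finset.mem_product, Finset.mem_filter, mem_bush, Finset.mem_inter]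
    tauto
  rw [Finset.sum_congr rfl h1, Finset.sum_comm]
  have h2 : ∀ z ∈ Ps ×ˢ Ps, (∑ n ∈ cov N a Ps, if n ∈ cls N a z.1 ∩ cls N a z.2 then 1 else 0) ≤
      (if z.1 = z.2 then (cls N a z.1).card else 0) +
      (if z.1 ≠ z.2 ∧ (cls N a z.1 ∩ cls N a z.2).Nonempty then 1 else 0) := by
    intro z hz
    rw [Finset.mem_product] at hz
    rw [← Finset.card_filter]
    by_cases he : z.1 = z.2
    · rw [if_pos he, if_neg (fun hc => hc.1 he), add_zero]
      apply Finset.card_le_card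
      intro n hn
      exact (Finset.mem_inter.mp (Finset.mem_filter.mp hn).2).1
    · rw [if_neg he, zero_add]
      by_cases hne : (cls N a z.1 ∩ cls N a z.2).Nonempty
      · rw [if_pos ⟨he, hne⟩]
        refine le_trans (Finset.card_le_card ?_)
          (inter_card_le (a := a) (hPs _ hz.1).1 (hPs _ hz.2).1 he (hPs _ hz.1).2 (hPs _ hz.2).2 hN)
        intro n hn
        exact (Finset.mem_filter.mp hn).2
      · rw [if_neg (fun hc => hne hc.2)]
        apply le_of_eq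
        rw [Finset.card_eq_zero]
        apply Finset.filter_eq_empty_iff.mpr
        intro n _ hc
        exact hne ⟨n, hc⟩
  refine (Finset.sum_le_sum h2).trans ?_
  rw [Finset.sum_add_distrib]
  apply add_le_add
  · rw [Finset.sum_product]
    apply Finset.sum_le_sum
    intro p hp
    rw [Finset.sum_ite_eq]
    split_ifs
    exact le_rfl
  · rw [← Finset.card_filter]
    exact le_rfl

theorem fan_double_count {N P K1 : ℕ} {a : ℕ → ℕ} {Ps : Finset ℕ}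
    (hPs : ∀ x ∈ Ps, x.Prime ∧ P ≤ x) (hN : N ≤ P ^ 2)
    (hK1 : ∀ p ∈ Ps, K1 + 1 ≤ (cls N a p).card) :
    K1 * (pairs N a Ps).card ≤
      ∑ n ∈ cov N a Ps, ∑ p ∈ Ps.filter (fun p => n ∉ cls N a p), (fan N a Ps n p).card := by
  classical
  have h1 : ∀ n ∈ cov N a Ps, ∑ p ∈ Ps.filter (fun p => n ∉ cls N a p), (fan N a Ps n p).card =
      ∑ z ∈ Ps ×ˢ Ps, if (n ∉ cls N a z.1 ∧ n ∈ cls N a z.2) ∧
        (cls N a z.1 ∩ cls N a z.2).Nonempty then 1 else 0 := by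
    intro n _
    rw [Finset.sum_filter, Finset.sum_product]
    apply Finset.sum_congr rfl
    intro p hp
    by_cases hnp : n ∈ cls N a p
    · rw [if_neg (not_not.mpr hnp)]
      symm
      apply Finset.sum_eq_zero
      intro q _
      rw [if_neg]
      exact fun hc => hc.1.1 hnp
    · rw [if_pos hnp, fan, bush, Finset.filter_filter, Finset.card_filter]
      apply Finset.sum_congr rfl
      intro q _
      simp only [hnp, not_false_eq_true, true_and]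
  rw [Finset.sum_congr rfl h1, Finset.sum_comm]
  rw [pairs, Finset.card_filter, Finset.mul_sum]
  apply Finset.sum_le_sum
  intro z hz
  rw [Finset.mem_product] at hz
  by_cases hc : z.1 ≠ z.2 ∧ (cls N a z.1 ∩ cls N a z.2).Nonempty
  · rw [if_pos hc, mul_one, ← Finset.card_filter]
    have h2 : cls N a z.2 \ (cls N a z.1 ∩ cls N a z.2) ⊆
        (cov N a Ps).filter (fun n => (n ∉ cls N a z.1 ∧ n ∈ cls N a z.2) ∧
          (cls N a z.1 ∩ cls N a z.2).Nonempty) := by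
      intro n hn
      rw [Finset.mem_sdiff, Finset.mem_inter] at hn
      rw [Finset.mem_filter]
      exact ⟨cls_subset_cov hz.2 hn.1, ⟨fun h => hn.2 ⟨h, hn.1⟩, hn.1⟩, hc.2⟩
    refine le_trans ?_ (Finset.card_le_card h2)
    have h3 := inter_card_le (a := a) (hPs _ hz.1).1 (hPs _ hz.2).1 hc.1 (hPs _ hz.1).2
      (hPs _ hz.2).2 hN
    have h4 := Finset.le_card_sdiff (cls N a z.1 ∩ cls N a z.2) (cls N a z.2)
    have h5 := hK1 _ hz.2
    omega
  · rw [if_neg hc, mul_zero]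
    exact Nat.zero_le _

theorem real_dich {S I E K1 c τ δ : ℝ} (hS0 : 0 ≤ S) (hK10 : 0 ≤ K1)
    (hc0 : 0 ≤ c) (hI0 : 0 ≤ I) (h1 : I ^ 2 ≤ S * (I + E))
    (h5 : K1 * E ≤ S * (c * τ) + c * δ * I) (hIlow : c * K1 ≤ I) :
    c * K1 ≤ 2 * S ∨ K1 * K1 ^ 2 * c ≤ 4 * τ * S ^ 2 ∨ K1 * K1 ≤ 4 * δ * S := by
  by_contra hcon
  rw [not_or, not_or, not_le, not_le, not_le] at hcon
  obtain ⟨c1, c2, c3⟩ := hcon
  have hSI : 2 * S < I := lt_of_lt_of_le c1 hIlow
  have hIpos : 0 < I := by linarith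
  have h10 : I ^ 2 ≤ 2 * (S * E) := by nlinarith
  have h11 : K1 * I ^ 2 ≤ 2 * S * (S * (c * τ)) + 2 * S * (c * δ * I) := by
    have h12 : K1 * I ^ 2 ≤ K1 * (2 * (S * E)) := mul_le_mul_of_nonneg_left h10 hK10
    have h13 : 2 * S * (K1 * E) ≤ 2 * S * (S * (c * τ) + c * δ * I) :=
      mul_le_mul_of_nonneg_left h5 (by linarith)
    linarith
  have hcpos : 0 < c := by
    rcases hc0.lt_or_eq with h | h
    · exact h
    · rw [← h, zero_mul] at c1
      linarith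
  have hPc : c * K1 ^ 2 * c ≤ I ^ 2 := by
    calc c * K1 ^ 2 * c = (c * K1) ^ 2 := by ring
      _ ≤ I ^ 2 := pow_le_pow_left₀ (mul_nonneg hc0 hK10) hIlow 2
  rcases le_or_gt (K1 * I ^ 2) (2 * (2 * S * (S * (c * τ)))) with hc | hc
  · have h14 : K1 * (c * K1 ^ 2 * c) ≤ 4 * S ^ 2 * (c * τ) := by
      calc K1 * (c * K1 ^ 2 * c) ≤ K1 * I ^ 2 :=
            mul_le_mul_of_nonneg_left hPc hK10
        _ ≤ 2 * (2 * S * (S * (c * τ))) := hc
        _ = 4 * S ^ 2 * (c * τ) := by ring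
    have h15 : c * (K1 * K1 ^ 2 * c) ≤ c * (4 * τ * S ^ 2) := by
      calc c * (K1 * K1 ^ 2 * c) = K1 * (c * K1 ^ 2 * c) := by ring
        _ ≤ 4 * S ^ 2 * (c * τ) := h14
        _ = c * (4 * τ * S ^ 2) := by ring
    have h16 := le_of_mul_le_mul_left h15 hcpos
    linarith
  · have h17 : K1 * I ^ 2 < 4 * (S * (c * δ * I)) := by linarith
    have h18 : K1 * I < 4 * (S * (c * δ)) := by
      have h19 : I * (K1 * I) < I * (4 * (S * (c * δ))) := by
        calc I * (K1 * I) = K1 * I ^ 2 := by ring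
          _ < 4 * (S * (c * δ * I)) := h17
          _ = I * (4 * (S * (c * δ))) := by ring
      exact lt_of_mul_lt_mul_left h19 hIpos.le
    have h20 : c * (K1 * K1) < c * (4 * δ * S) := by
      calc c * (K1 * K1) = K1 * (c * K1) := by ring
        _ ≤ K1 * I := mul_le_mul_of_nonneg_left hIlow hK10
        _ < 4 * (S * (c * δ)) := h18
        _ = c * (4 * δ * S) := by ring
    have h21 := lt_of_mul_lt_mul_left h20 hcpos.le
    linarith

/-- The final dichotomy. -/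
theorem dichotomy {N P m h K K1 : ℕ} {a : ℕ → ℕ} {Ps : Finset ℕ} {A τ δ : ℝ}
    (hm : 1 ≤ m) (hP : m * 4 ^ m < P) (hh : h < P) (hh0 : 1 ≤ h)
    (hPs : ∀ x ∈ Ps, x.Prime ∧ P ≤ x ∧ x ≤ 2 * P) (hK : N < (K + 1) * P)
    (hN : N ≤ P ^ 2)
    (hK1 : ∀ p ∈ Ps, K1 + 1 ≤ (cls N a p).card)
    (hA : 0 ≤ A) (hτ0 : 0 ≤ τ) (hδ0 : 0 ≤ δ)
    (hτ : ∀ T : ℕ, τ < T → 2 * (2 * (m * (h * K)) + 1) ≤ T.choose m * h ^ m ∧
      (T : ℝ) ^ m ≤ A * (T.choose m : ℝ))
    (hδ : A ^ 2 * (4 * m * (2 * (m * (h * K)) + 1) : ℝ) ≤ Ps.card * δ ^ (2 * m)) :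
    (Ps.card : ℝ) * K1 ≤ 2 * (cov N a Ps).card ∨
    (K1 : ℝ) * (K1 : ℝ) ^ 2 * Ps.card ≤ 4 * τ * ((cov N a Ps).card : ℝ) ^ 2 ∨
    (K1 : ℝ) * K1 ≤ 4 * δ * (cov N a Ps).card := by
  have hIR : (∑ n ∈ cov N a Ps, ((bush N a Ps n).card : ℝ)) =
      ((∑ p ∈ Ps, (cls N a p).card : ℕ) : ℝ) := by
    rw [← sum_bush (N := N) (a := a) (Ps := Ps)]
    push_cast
    rfl
  have hIlow : (Ps.card : ℝ) * K1 ≤ ((∑ p ∈ Ps, (cls N a p).card : ℕ) : ℝ) := by
    have h1 : Ps.card * K1 ≤ ∑ p ∈ Ps, (cls N a p).card := by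
      calc Ps.card * K1 = ∑ p ∈ Ps, K1 := by rw [Finset.sum_const, smul_eq_mul]
        _ ≤ _ := Finset.sum_le_sum fun p hp => by have := hK1 p hp; omega
    exact_mod_cast h1
  have h1 : ((∑ p ∈ Ps, (cls N a p).card : ℕ) : ℝ) ^ 2 ≤ ((cov N a Ps).card : ℝ) *
      (((∑ p ∈ Ps, (cls N a p).card : ℕ) : ℝ) + ((pairs N a Ps).card : ℝ)) := by
    have h2 : ((∑ n ∈ cov N a Ps, ((bush N a Ps n).card : ℝ))) ^ 2 ≤
        (cov N a Ps).card * ∑ n ∈ cov N a Ps, ((bush N a Ps n).card : ℝ) ^ 2 :=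
      sq_sum_le_card_mul_sum_sq
    have h4 : ∑ n ∈ cov N a Ps, ((bush N a Ps n).card : ℝ) ^ 2 ≤
        (((∑ p ∈ Ps, (cls N a p).card : ℕ) : ℝ) + ((pairs N a Ps).card : ℝ)) := by
      have := sum_bush_sq_le (a := a) (fun x hx => ⟨(hPs x hx).1, (hPs x hx).2.1⟩) hN
      exact_mod_cast this
    rw [hIR] at h2
    exact h2.trans (mul_le_mul_of_nonneg_left h4 (Nat.cast_nonneg _))
  have h5 : (K1 : ℝ) * ((pairs N a Ps).card : ℝ) ≤ ((cov N a Ps).card : ℝ) * (Ps.card * τ) +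
      Ps.card * δ * ((∑ p ∈ Ps, (cls N a p).card : ℕ) : ℝ) := by
    have h6 := fan_double_count (a := a) (fun x hx => ⟨(hPs x hx).1, (hPs x hx).2.1⟩) hN hK1
    have h7 : (K1 : ℝ) * ((pairs N a Ps).card : ℝ) ≤ ∑ n ∈ cov N a Ps,
        ∑ p ∈ Ps.filter (fun p => n ∉ cls N a p), ((fan N a Ps n p).card : ℝ) := by
      exact_mod_cast h6
    refine h7.trans ?_
    have h8 : ∑ n ∈ cov N a Ps,
        ∑ p ∈ Ps.filter (fun p => n ∉ cls N a p), ((fan N a Ps n p).card : ℝ) ≤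
        ∑ n ∈ cov N a Ps, ((Ps.card : ℝ) * τ + Ps.card * δ * (bush N a Ps n).card) := by
      apply Finset.sum_le_sum
      intro n hn
      have hn' := Finset.mem_Icc.mp (Finset.mem_filter.mp hn).1
      exact fan_sum_le hm hP hh hh0 hPs hK hA hτ0 hδ0 hτ hδ hn'
    refine h8.trans (le_of_eq ?_)
    rw [Finset.sum_add_distrib, Finset.sum_const, nsmul_eq_mul, ← Finset.mul_sum, hIR]
  exact real_dich (Nat.cast_nonneg _) (Nat.cast_nonneg _) (Nat.cast_nonneg _)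
    (Nat.cast_nonneg _) h1 h5 hIlow

end Pool.Agent.helper79.Cov
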