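import Pool.Agent.helper79.Cov3

/-! The four-slice sums-differences argument inside short blocks. -/

namespace Pool.Agent.helper79.Cov

open Finset

theorem exists_rep (X c p : ℕ) (hp : 0 < p) : ∃ u, X ≤ u ∧ u < X + p ∧ u ≡ c [MOD p] := by
  have h0 : (0 : ℤ) < p := by exact_mod_cast hp
  have h1 := Int.emod_nonneg ((c : ℤ) - X) h0.ne'
  have h2 := Int.emod_lt_of_pos ((c : ℤ) - X) h0
  obtain ⟨r, hr⟩ := Int.eq_ofNat_of_zero_le h1
  refine ⟨X + r, by omega, by omega, ?_⟩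
  apply Nat.modEq_iff_dvd.mpr
  push_cast
  have h3 : (c : ℤ) - (X + r) = ((c : ℤ) - X) - (((c : ℤ) - X) % p) := by rw [hr]; ring
  rw [h3]
  exact Int.dvd_self_sub_emod

theorem block_bound {N P X : ℕ} {a : ℕ → ℕ} {Ps : Finset ℕ} (hX : 1 ≤ X)
    (hXN : X + 14 * P ≤ N + 1) (hPs : ∀ p ∈ Ps, 0 < p ∧ p ≤ 2 * P) :
    Ps.card ^ 4 ≤ ((cov N a Ps).filter (fun n => X ≤ n ∧ n < X + 14 * P)).card ^ 7 := by
  classical
  have hex : ∀ p : ℕ, ∃ u, 0 < p → X ≤ u ∧ u < X + p ∧ u ≡ a p [MOD p] := by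
    intro p
    by_cases hp : 0 < p
    · obtain ⟨u, hu⟩ := exists_rep X (a p) p hp
      exact ⟨u, fun _ => hu⟩
    · exact ⟨0, fun h => absurd h hp⟩
  choose u hu using hex
  set blk := (cov N a Ps).filter (fun n => X ≤ n ∧ n < X + 14 * P) with hblk
  have hmem : ∀ p ∈ Ps, ∀ i ≤ 6, u p + i * p ∈ blk := by
    intro p hp i hi
    obtain ⟨hp0, hp1⟩ := hPs p hp
    obtain ⟨h1, h2, h3⟩ := hu p hp0
    have h4 : i * p ≤ 6 * p := Nat.mul_le_mul_right _ hi
    rw [hblk, Finset.mem_filter, mem_cov]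
    refine ⟨⟨p, hp, ?_⟩, by omega, by omega⟩
    rw [mem_cls]
    refine ⟨⟨by omega, by omega⟩, ?_⟩
    calc u p + i * p ≡ u p + 0 [MOD p] := by
          apply Nat.ModEq.add_left
          exact (Nat.modEq_zero_iff_dvd.mpr (dvd_mul_left p i))
      _ = u p := by ring
      _ ≡ a p [MOD p] := h3
  set V := (Ps ×ˢ Ps).filter (fun z => u z.1 = u z.2) with hV
  have c1 : Ps.card ^ 2 ≤ blk.card * V.card := by
    apply collisions Ps blk u
    intro p hp
    have := hmem p hp 0 (by norm_num)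
    simpa using this
  set φ : ℕ × ℕ → ℕ × ℕ := fun z => (u z.1 + 6 * z.1, u z.2 + 3 * z.2) with hφ
  set W := (V ×ˢ V).filter (fun w => φ w.1 = φ w.2) with hW
  have hVm : ∀ z ∈ V, z.1 ∈ Ps ∧ z.2 ∈ Ps ∧ u z.1 = u z.2 := by
    intro z hz
    rw [hV, Finset.mem_filter, Finset.mem_product] at hz
    exact ⟨hz.1.1, hz.1.2, hz.2⟩
  have c2 : V.card ^ 2 ≤ (blk ×ˢ blk).card * W.card := by
    apply collisions V (blk ×ˢ blk) φ
    intro z hz
    obtain ⟨h1, h2, _⟩ := hVm z hz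
    exact Finset.mem_product.mpr ⟨hmem _ h1 6 le_rfl, hmem _ h2 3 (by norm_num)⟩
  have c3 : W.card ≤ (blk ×ˢ (blk ×ˢ blk)).card := by
    apply Finset.card_le_card_of_injOn
      (fun w => (u w.1.1 + 3 * w.1.1, (u w.2.1 + 4 * w.2.1, u w.2.2 + 6 * w.2.2)))
    · intro w hw
      rw [Finset.mem_coe, hW, Finset.mem_filter, Finset.mem_product] at hw
      obtain ⟨h1, h2, _⟩ := hVm _ hw.1.1
      obtain ⟨h3, h4, _⟩ := hVm _ hw.1.2
      exact Finset.mem_product.mpr ⟨hmem _ h1 3 (by norm_num),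
        Finset.mem_product.mpr ⟨hmem _ h3 4 (by norm_num), hmem _ h4 6 le_rfl⟩⟩
    · intro w hw w' hw' he
      rw [Finset.mem_coe, hW, Finset.mem_filter, Finset.mem_product] at hw hw'
      obtain ⟨⟨v1, v2⟩, e⟩ := hw
      obtain ⟨⟨v1', v2'⟩, e'⟩ := hw'
      obtain ⟨-, -, a1⟩ := hVm _ v1
      obtain ⟨-, -, a2⟩ := hVm _ v2
      obtain ⟨-, -, a1'⟩ := hVm _ v1'
      obtain ⟨-, -, a2'⟩ := hVm _ v2'
      simp only [hφ, Prod.mk.injEq] at e e' he
      obtain ⟨⟨p0, p1⟩, ⟨p2, p3⟩⟩ := w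
      obtain ⟨⟨q0, q1⟩, ⟨q2, q3⟩⟩ := w'
      simp only at a1 a2 a1' a2' e e' he
      obtain ⟨e1, e2⟩ := e
      obtain ⟨e1', e2'⟩ := e'
      obtain ⟨b1, b2, b3⟩ := he
      have k1 : p1 = q1 := by omega
      subst k1
      have k2 : p0 = q0 := by omega
      subst k2
      have k3 : p2 = q2 := by omega
      subst k3
      have k4 : p3 = q3 := by omega
      subst k4
      rfl
  rw [Finset.card_product] at c2 c3
  rw [Finset.card_product] at c3
  set M := blk.card with hM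
  calc Ps.card ^ 4 = (Ps.card ^ 2) ^ 2 := by ring
    _ ≤ (M * V.card) ^ 2 := Nat.pow_le_pow_left c1 2
    _ = M ^ 2 * V.card ^ 2 := by ring
    _ ≤ M ^ 2 * (M * M * W.card) := Nat.mul_le_mul_left _ c2
    _ ≤ M ^ 2 * (M * M * (M * (M * M))) := by gcongr
    _ = M ^ 7 := by ring

theorem blocks_bound {N P : ℕ} {a : ℕ → ℕ} {Ps : Finset ℕ} (hP : 0 < P)
    (hPs : ∀ p ∈ Ps, 0 < p ∧ p ≤ 2 * P) :
    ((N / (14 * P) : ℕ) : ℝ) * (Ps.card : ℝ) ^ (4 / 7 : ℝ) ≤ (cov N a Ps).card := by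
  classical
  set J := N / (14 * P) with hJ
  have hJN : J * (14 * P) ≤ N := Nat.div_mul_le_self N (14 * P)
  have h1 : ∀ j ∈ Finset.range J, (Ps.card : ℝ) ^ (4 / 7 : ℝ) ≤
      (((cov N a Ps).filter (fun n => 1 + j * (14 * P) ≤ n ∧
        n < 1 + j * (14 * P) + 14 * P)).card : ℝ) := by
    intro j hj
    rw [Finset.mem_range] at hj
    have h2 : (j + 1) * (14 * P) ≤ J * (14 * P) := Nat.mul_le_mul_right _ hj
    have h3 := block_bound (N := N) (P := P) (X := 1 + j * (14 * P)) (a := a) (Ps := Ps)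
      (by omega) (by linarith) hPs
    have h4 : (Ps.card : ℝ) ^ 4 ≤ (((cov N a Ps).filter (fun n => 1 + j * (14 * P) ≤ n ∧
        n < 1 + j * (14 * P) + 14 * P)).card : ℝ) ^ 7 := by exact_mod_cast h3
    set M : ℝ := (((cov N a Ps).filter (fun n => 1 + j * (14 * P) ≤ n ∧
        n < 1 + j * (14 * P) + 14 * P)).card : ℝ) with hM
    have hM0 : 0 ≤ M := by positivity
    calc (Ps.card : ℝ) ^ (4 / 7 : ℝ) = ((Ps.card : ℝ) ^ 4) ^ (1 / 7 : ℝ) := by
          rw [← Real.rpow_natCast, ← Real.rpow_mul (by positivity)]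
          norm_num
      _ ≤ (M ^ 7) ^ (1 / 7 : ℝ) := Real.rpow_le_rpow (by positivity) h4 (by norm_num)
      _ = M := by
          rw [← Real.rpow_natCast, ← Real.rpow_mul hM0]
          norm_num
  have h5 : ((J : ℕ) : ℝ) * (Ps.card : ℝ) ^ (4 / 7 : ℝ) ≤ ∑ j ∈ Finset.range J,
      (((cov N a Ps).filter (fun n => 1 + j * (14 * P) ≤ n ∧
        n < 1 + j * (14 * P) + 14 * P)).card : ℝ) := by
    calc ((J : ℕ) : ℝ) * (Ps.card : ℝ) ^ (4 / 7 : ℝ) =
          ∑ j ∈ Finset.range J, (Ps.card : ℝ) ^ (4 / 7 : ℝ) := by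
          rw [Finset.sum_const, Finset.card_range, nsmul_eq_mul]
      _ ≤ _ := Finset.sum_le_sum h1
  refine h5.trans ?_
  have h6 : ∑ j ∈ Finset.range J, ((cov N a Ps).filter (fun n => 1 + j * (14 * P) ≤ n ∧
        n < 1 + j * (14 * P) + 14 * P)).card ≤ (cov N a Ps).card := by
    rw [← Finset.card_biUnion]
    · apply Finset.card_le_card
      intro n hn
      rw [Finset.mem_biUnion] at hn
      obtain ⟨j, _, hn⟩ := hn
      exact (Finset.mem_filter.mp hn).1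
    · intro i _ j _ hij
      rw [Function.onFun, Finset.disjoint_left]
      intro n hn hn'
      rw [Finset.mem_filter] at hn hn'
      apply hij
      rcases lt_trichotomy i j with h | h | h
      · have : (i + 1) * (14 * P) ≤ j * (14 * P) := Nat.mul_le_mul_right _ h
        have e : (i + 1) * (14 * P) = i * (14 * P) + 14 * P := by ring
        omega
      · exact h
      · have : (j + 1) * (14 * P) ≤ i * (14 * P) := Nat.mul_le_mul_right _ h
        have e : (j + 1) * (14 * P) = j * (14 * P) + 14 * P := by ring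
        omega
  exact_mod_cast h6

end Pool.Agent.helper79.Cov
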