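import Pool.Agent.helper79.Cov4
import Pool.Agent.helper79.Cov5
import Pool.Agent.helper79.DyadicPrimes

open Finset

namespace Pool.Agent.helper79.Cov

theorem card_cls_ge {N : ℕ} {a : ℕ → ℕ} {p : ℕ} (hp : 0 < p) : N / p ≤ (cls N a p).card := by
  classical
  choose u hu1 hu2 hu3 using fun j : ℕ => exists_rep (1 + j * p) (a p) p hp
  have hinj : Set.InjOn u (Finset.range (N / p)) := by
    intro i _ j _ hij
    rcases lt_trichotomy i j with h | h | h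
    · exfalso
      have : (i + 1) * p ≤ j * p := Nat.mul_le_mul_right _ h
      have e : (i + 1) * p = i * p + p := by ring
      have h1 := hu2 i
      have h2 := hu1 j
      omega
    · exact h
    · exfalso
      have : (j + 1) * p ≤ i * p := Nat.mul_le_mul_right _ h
      have e : (j + 1) * p = j * p + p := by ring
      have h1 := hu2 j
      have h2 := hu1 i
      omega
  calc N / p = ((Finset.range (N / p)).image u).card := by
        rw [Finset.card_image_of_injOn hinj, Finset.card_range]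
    _ ≤ (cls N a p).card := by
        apply Finset.card_le_card
        intro x hx
        rw [Finset.mem_image] at hx
        obtain ⟨j, hj, rfl⟩ := hx
        rw [Finset.mem_range] at hj
        have h3 : (j + 1) * p ≤ N / p * p := Nat.mul_le_mul_right _ hj
        have h4 : N / p * p ≤ N := Nat.div_mul_le_self N p
        have e : (j + 1) * p = j * p + p := by ring
        have h1 := hu1 j
        have h2 := hu2 j
        rw [mem_cls]
        exact ⟨⟨by omega, by omega⟩, hu3 j⟩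

theorem pow_le_choose' {T m : ℕ} (hT : 2 * m ≤ T) :
    T ^ m ≤ 2 ^ m * m.factorial * T.choose m := by
  have h1 : T ≤ 2 * (T + 1 - m) := by omega
  calc T ^ m ≤ (2 * (T + 1 - m)) ^ m := Nat.pow_le_pow_left h1 m
    _ = 2 ^ m * (T + 1 - m) ^ m := by rw [mul_pow]
    _ ≤ 2 ^ m * T.descFactorial m := Nat.mul_le_mul_left _ (Nat.pow_sub_le_descFactorial T m)
    _ = 2 ^ m * m.factorial * T.choose m := by
        rw [Nat.descFactorial_eq_factorial_mul_choose, mul_assoc]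

/-- The first condition on `τ`. -/
theorem tau_cond {m h K T : ℕ} (hm : 1 ≤ m) (hh : 1 ≤ h) (hK : 1 ≤ K)
    (hT : (2 * m + (2 / h) * (6 * m * m.factorial * (h * K)) ^ (1 / m : ℝ) : ℝ) < T) :
    2 * (2 * (m * (h * K)) + 1) ≤ T.choose m * h ^ m ∧
      (T : ℝ) ^ m ≤ (2 ^ m * m.factorial : ℝ) * (T.choose m : ℝ) := by
  have hmR : (1 : ℝ) ≤ m := by exact_mod_cast hm
  have hhR : (1 : ℝ) ≤ h := by exact_mod_cast hh
  have hKR : (1 : ℝ) ≤ K := by exact_mod_cast hK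
  have hY0 : (0 : ℝ) ≤ 6 * m * m.factorial * (h * K) := by positivity
  set Y : ℝ := 6 * m * m.factorial * (h * K) with hY
  have hYp : 0 ≤ Y ^ (1 / m : ℝ) := Real.rpow_nonneg hY0 _
  have hT2 : 2 * m ≤ T := by
    have h1 : (2 * m : ℝ) < T := by
      have : 0 ≤ (2 / h : ℝ) * Y ^ (1 / m : ℝ) := by positivity
      linarith
    have h2 : (2 * m : ℕ) < T := by exact_mod_cast h1
    exact h2.le
  have hc := pow_le_choose' hT2
  have hcR : (T : ℝ) ^ m ≤ (2 ^ m * m.factorial : ℝ) * (T.choose m : ℝ) := by exact_mod_cast hc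
  refine ⟨?_, hcR⟩
  have h1 : (2 / h : ℝ) * Y ^ (1 / m : ℝ) ≤ T := by
    have : (0 : ℝ) ≤ 2 * m := by positivity
    linarith
  have h2 : ((2 / h : ℝ) * Y ^ (1 / m : ℝ)) ^ m ≤ (T : ℝ) ^ m :=
    pow_le_pow_left₀ (by positivity) h1 m
  have h3 : ((2 / h : ℝ) * Y ^ (1 / m : ℝ)) ^ m = 2 ^ m / h ^ m * Y := by
    rw [mul_pow, div_pow, one_div, Real.rpow_inv_natCast_pow hY0 (by omega)]
  rw [h3] at h2
  have h4 : (2 : ℝ) ^ m / h ^ m * Y ≤ (2 ^ m * m.factorial : ℝ) * (T.choose m : ℝ) := h2.trans hcR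
  have hhm : (0 : ℝ) < (h : ℝ) ^ m := by positivity
  have h5 : (2 : ℝ) ^ m * Y ≤ (2 ^ m * m.factorial : ℝ) * (T.choose m : ℝ) * h ^ m := by
    have := mul_le_mul_of_nonneg_right h4 hhm.le
    calc (2 : ℝ) ^ m * Y = 2 ^ m / h ^ m * Y * h ^ m := by
          field_simp
      _ ≤ _ := this
  have h6 : (2 : ℝ) ^ m * m.factorial * (6 * m * (h * K)) ≤
      (2 ^ m * m.factorial : ℝ) * ((T.choose m : ℝ) * h ^ m) := by
    calc (2 : ℝ) ^ m * m.factorial * (6 * m * (h * K)) = (2 : ℝ) ^ m * Y := by rw [hY]; ring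
      _ ≤ _ := h5
      _ = _ := by ring
  have h7 : (6 * m * (h * K) : ℝ) ≤ (T.choose m : ℝ) * h ^ m :=
    le_of_mul_le_mul_left h6 (by positivity)
  have h8 : 6 * m * (h * K) ≤ T.choose m * h ^ m := by exact_mod_cast h7
  have h9 : 1 ≤ m * (h * K) := Nat.one_le_iff_ne_zero.mpr (by positivity)
  calc 2 * (2 * (m * (h * K)) + 1) ≤ 6 * (m * (h * K)) := by omega
    _ = 6 * m * (h * K) := by ring
    _ ≤ _ := h8

/-- The condition on `δ`. -/
theorem delta_cond {m h K n : ℕ} (hm : 1 ≤ m) (hh : 1 ≤ h) (hK : 1 ≤ K) (hn : 1 ≤ n) {A : ℝ} :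
    A ^ 2 * (4 * m * (2 * (m * (h * K)) + 1) : ℝ) ≤
      n * ((12 * m ^ 2 * A ^ 2 * (h * K) / n) ^ (1 / (2 * m : ℕ) : ℝ)) ^ (2 * m) := by
  have hmR : (1 : ℝ) ≤ m := by exact_mod_cast hm
  have hhR : (1 : ℝ) ≤ h := by exact_mod_cast hh
  have hKR : (1 : ℝ) ≤ K := by exact_mod_cast hK
  have hnR : (1 : ℝ) ≤ n := by exact_mod_cast hn
  rw [one_div, Real.rpow_inv_natCast_pow (by positivity) (by omega)]
  have h1 : (n : ℝ) * (12 * m ^ 2 * A ^ 2 * (h * K) / n) = 12 * m ^ 2 * A ^ 2 * (h * K) := by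
    field_simp
  rw [h1]
  have h2 : (1 : ℝ) ≤ m * (h * K) := by
    have : (1 : ℝ) ≤ h * K := one_le_mul_of_one_le_of_one_le hhR hKR
    exact one_le_mul_of_one_le_of_one_le hmR this
  have h3 : (0 : ℝ) ≤ A ^ 2 * (4 * m) := by positivity
  calc A ^ 2 * (4 * m * (2 * (m * (h * K)) + 1) : ℝ) = A ^ 2 * (4 * m) * (2 * (m * (h * K)) + 1) := by
        ring
    _ ≤ A ^ 2 * (4 * m) * (3 * (m * (h * K))) := by
        apply mul_le_mul_of_nonneg_left _ h3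
        linarith
    _ = _ := by ring

/-- Upper bound for `τ`. -/
theorem tau_le {m h K : ℕ} {N α ω : ℝ} (hm : 1 ≤ m) (hN : 1 ≤ N)
    (hω : N ^ ω ≤ h) (hK : (K : ℝ) ≤ N ^ (1 - α))
    (he : 0 ≤ (ω + 1 - α) / m - ω) :
    (2 * m + (2 / h) * (6 * m * m.factorial * (h * K)) ^ (1 / m : ℝ) : ℝ) ≤
      14 * m * m.factorial * N ^ ((ω + 1 - α) / m - ω) := by
  have hmR : (1 : ℝ) ≤ m := by exact_mod_cast hm
  have hfR : (1 : ℝ) ≤ m.factorial := by exact_mod_cast Nat.one_le_iff_ne_zero.mpr (Nat.factorial_ne_zero m)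
  have hN0 : (0 : ℝ) < N := by linarith
  have hh0 : (0 : ℝ) < h := lt_of_lt_of_le (Real.rpow_pos_of_pos hN0 _) hω
  set R : ℝ := N ^ ((ω + 1 - α) / m - ω) with hR
  have hR1 : 1 ≤ R := Real.one_le_rpow hN he
  have hinv : (0 : ℝ) ≤ 1 / m := by positivity
  have hinv1 : (1 / m : ℝ) ≤ 1 := by
    rw [div_le_one (by linarith)]; exact hmR
  have hc1 : (1 : ℝ) ≤ 6 * m * m.factorial := by nlinarith
  have h1 : (6 * m * m.factorial * (h * K) : ℝ) ^ (1 / m : ℝ) ≤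
      6 * m * m.factorial * ((h : ℝ) ^ (1 / m : ℝ) * (N ^ (1 - α)) ^ (1 / m : ℝ)) := by
    rw [Real.mul_rpow (by positivity) (by positivity),
      Real.mul_rpow (x := (h : ℝ)) (y := (K : ℝ)) (by positivity) (by positivity)]
    apply mul_le_mul
    · exact Real.rpow_le_self_of_one_le hc1 hinv1
    · apply mul_le_mul_of_nonneg_left _ (by positivity)
      exact Real.rpow_le_rpow (by positivity) hK hinv
    · positivity
    · positivity
  have h2 : (2 / h : ℝ) * (6 * m * m.factorial * ((h : ℝ) ^ (1 / m : ℝ) * (N ^ (1 - α)) ^ (1 / m : ℝ)))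
      = 12 * m * m.factorial * ((h : ℝ) ^ (1 / m - 1 : ℝ) * (N ^ (1 - α)) ^ (1 / m : ℝ)) := by
    rw [Real.rpow_sub hh0, Real.rpow_one]
    field_simp
    ring
  have h3 : (h : ℝ) ^ (1 / m - 1 : ℝ) ≤ (N ^ ω) ^ (1 / m - 1 : ℝ) :=
    Real.rpow_le_rpow_of_nonpos (Real.rpow_pos_of_pos hN0 _) hω (by linarith)
  have h4 : (N ^ ω) ^ (1 / m - 1 : ℝ) * (N ^ (1 - α)) ^ (1 / m : ℝ) = R := by
    rw [← Real.rpow_mul hN0.le, ← Real.rpow_mul hN0.le, ← Real.rpow_add hN0, hR]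
    congr 1
    ring
  calc (2 * m + (2 / h) * (6 * m * m.factorial * (h * K)) ^ (1 / m : ℝ) : ℝ)
      ≤ 2 * m + (2 / h) * (6 * m * m.factorial * ((h : ℝ) ^ (1 / m : ℝ) * (N ^ (1 - α)) ^ (1 / m : ℝ))) := by
        gcongr
    _ = 2 * m + 12 * m * m.factorial * ((h : ℝ) ^ (1 / m - 1 : ℝ) * (N ^ (1 - α)) ^ (1 / m : ℝ)) := by
        rw [h2]
    _ ≤ 2 * m + 12 * m * m.factorial * ((N ^ ω) ^ (1 / m - 1 : ℝ) * (N ^ (1 - α)) ^ (1 / m : ℝ)) := by
        gcongr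
    _ = 2 * m + 12 * m * m.factorial * R := by rw [h4]
    _ ≤ 2 * m * m.factorial * R + 12 * m * m.factorial * R := by
        have h5 : (1 : ℝ) ≤ m.factorial * R := one_le_mul_of_one_le_of_one_le hfR hR1
        have h6 : (2 * m : ℝ) * 1 ≤ 2 * m * (m.factorial * R) := by gcongr
        linarith
    _ = _ := by ring

/-- Upper bound for `δ`. -/
theorem delta_le {m h K n : ℕ} {N α ω A : ℝ} (hm : 1 ≤ m) (hN : 3 ≤ N) (hh0 : 1 ≤ h) (hK0 : 1 ≤ K)
    (hω : (h : ℝ) ≤ 2 * N ^ ω) (hK : (K : ℝ) ≤ N ^ (1 - α)) (hA : 1 ≤ A)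
    (hn : N ^ α / (16 * Real.log N) ≤ n) :
    (12 * m ^ 2 * A ^ 2 * (h * K) / n) ^ (1 / (2 * m : ℕ) : ℝ) ≤
      384 * m ^ 2 * A ^ 2 * Real.log N * N ^ ((ω + 1 - 2 * α) / (2 * m)) := by
  have hmR : (1 : ℝ) ≤ m := by exact_mod_cast hm
  have hN0 : (0 : ℝ) < N := by linarith
  have hlog : 1 ≤ Real.log N := by
    rw [Real.le_log_iff_exp_le hN0]
    have := Real.exp_one_lt_d9
    linarith
  have hn0 : 0 < (n : ℝ) := lt_of_lt_of_le (by positivity) hn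
  have hhR : (1 : ℝ) ≤ h := by exact_mod_cast hh0
  have hKR : (1 : ℝ) ≤ K := by exact_mod_cast hK0
  have h1 : (12 * m ^ 2 * A ^ 2 * (h * K) / n : ℝ) ≤
      (384 * m ^ 2 * A ^ 2 * Real.log N) * N ^ (ω + 1 - 2 * α) := by
    rw [div_le_iff₀ hn0]
    have h2 : N ^ α ≤ n * (16 * Real.log N) := (div_le_iff₀ (by positivity)).mp hn
    have h3 : (h * K : ℝ) ≤ 2 * N ^ ω * N ^ (1 - α) := by gcongr
    have h4 : N ^ ω * N ^ (1 - α) = N ^ (ω + 1 - 2 * α) * N ^ α := by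
      rw [← Real.rpow_add hN0, ← Real.rpow_add hN0]
      congr 1
      ring
    calc (12 * m ^ 2 * A ^ 2 * (h * K) : ℝ) ≤ 12 * m ^ 2 * A ^ 2 * (2 * N ^ ω * N ^ (1 - α)) := by
          gcongr
      _ = 24 * m ^ 2 * A ^ 2 * (N ^ (ω + 1 - 2 * α) * N ^ α) := by
          rw [← h4]; ring
      _ ≤ 24 * m ^ 2 * A ^ 2 * (N ^ (ω + 1 - 2 * α) * (n * (16 * Real.log N))) := by
          gcongr
      _ = _ := by ring
  have hc1 : (1 : ℝ) ≤ 384 * m ^ 2 * A ^ 2 * Real.log N := by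
    have e1 : (1 : ℝ) ≤ m ^ 2 := one_le_pow₀ hmR
    have e2 : (1 : ℝ) ≤ A ^ 2 := one_le_pow₀ hA
    have e3 : (1 : ℝ) ≤ 384 * m ^ 2 := by linarith
    have e4 : (1 : ℝ) ≤ 384 * m ^ 2 * A ^ 2 := one_le_mul_of_one_le_of_one_le e3 e2
    exact one_le_mul_of_one_le_of_one_le e4 hlog
  have hinv : (0 : ℝ) ≤ 1 / (2 * m : ℕ) := by positivity
  have hinv1 : (1 / (2 * m : ℕ) : ℝ) ≤ 1 := by
    push_cast
    rw [div_le_one (by linarith)]; linarith
  calc (12 * m ^ 2 * A ^ 2 * (h * K) / n : ℝ) ^ (1 / (2 * m : ℕ) : ℝ)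
      ≤ ((384 * m ^ 2 * A ^ 2 * Real.log N) * N ^ (ω + 1 - 2 * α)) ^ (1 / (2 * m : ℕ) : ℝ) :=
        Real.rpow_le_rpow (by positivity) h1 hinv
    _ = (384 * m ^ 2 * A ^ 2 * Real.log N) ^ (1 / (2 * m : ℕ) : ℝ) *
        (N ^ (ω + 1 - 2 * α)) ^ (1 / (2 * m : ℕ) : ℝ) := by
        rw [Real.mul_rpow (by positivity) (by positivity)]
    _ ≤ (384 * m ^ 2 * A ^ 2 * Real.log N) * N ^ ((ω + 1 - 2 * α) / (2 * m)) := by
        apply mul_le_mul
        · exact Real.rpow_le_self_of_one_le hc1 hinv1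
        · rw [← Real.rpow_mul hN0.le]
          apply le_of_eq
          congr 1
          push_cast
          ring
        · positivity
        · positivity

/-- Branch 1. -/
theorem branch1 {N α E S n K1 Lg : ℝ} (hN : 1 ≤ N) (hLg : 1 ≤ Lg) (hE : E ≤ 1)
    (hn : N ^ α / (16 * Lg) ≤ n) (hK1 : N ^ (1 - α) / 8 ≤ K1) (h : n * K1 ≤ 2 * S) :
    (1 / 256) * N ^ E / Lg ≤ S := by
  have hN0 : (0 : ℝ) < N := by linarith
  have h1 : N ^ α / (16 * Lg) * (N ^ (1 - α) / 8) ≤ n * K1 := by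
    apply mul_le_mul hn hK1 (by positivity)
    exact le_trans (by positivity) hn
  have h2 : N ^ α * N ^ (1 - α) = N := by
    rw [← Real.rpow_add hN0]
    simp
  have h3 : N ^ E ≤ N := Real.rpow_le_self_of_one_le hN hE
  have h4 : (1 / 256) * N ^ E / Lg ≤ (1 / 256) * N / Lg := by gcongr
  have h5 : N ^ α / (16 * Lg) * (N ^ (1 - α) / 8) = 2 * ((1 / 256) * N / Lg) := by
    have : N ^ α / (16 * Lg) * (N ^ (1 - α) / 8) = (N ^ α * N ^ (1 - α)) / (128 * Lg) := by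
      field_simp
      ring
    rw [this, h2]
    field_simp
    norm_num
  linarith

/-- Branch 2. -/
theorem branch2 {N α E e S n K1 Lg τ C : ℝ} (hN : 1 ≤ N) (hLg : 1 ≤ Lg) (hC : 1 ≤ C)
    (hS : 0 ≤ S)
    (hE : 2 * E ≤ 3 - 2 * α - e) (hτ : τ ≤ C * N ^ e)
    (hn : N ^ α / (16 * Lg) ≤ n) (hK1 : N ^ (1 - α) / 8 ≤ K1)
    (h : K1 * K1 ^ 2 * n ≤ 4 * τ * S ^ 2) {c : ℝ} (hc0 : 0 ≤ c) (hc : c ^ 2 * (32768 * C) ≤ 1) :
    c * N ^ E / Lg ≤ S := by
  have hN0 : (0 : ℝ) < N := by linarith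
  have hL0 : 0 < N ^ (1 - α) / 8 := by positivity
  have hK10 : 0 ≤ K1 := hL0.le.trans hK1
  have h1 : (N ^ (1 - α) / 8) * (N ^ (1 - α) / 8) ^ 2 * (N ^ α / (16 * Lg)) ≤
      K1 * K1 ^ 2 * n := by
    gcongr
  have h2 : (N ^ (1 - α) / 8) * (N ^ (1 - α) / 8) ^ 2 * (N ^ α / (16 * Lg)) =
      N ^ (3 - 2 * α) / (8192 * Lg) := by
    have : N ^ (3 - 2 * α) = N ^ (1 - α) * N ^ (1 - α) * N ^ (1 - α) * N ^ α := by
      rw [← Real.rpow_add hN0, ← Real.rpow_add hN0, ← Real.rpow_add hN0]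
      congr 1
      ring
    rw [this]
    field_simp
    ring
  have h3 : N ^ (3 - 2 * α) / (8192 * Lg) ≤ 4 * (C * N ^ e) * S ^ 2 := by
    rw [← h2]
    refine h1.trans (h.trans ?_)
    gcongr
  have h4 : N ^ (3 - 2 * α - e) ≤ 32768 * C * Lg * S ^ 2 := by
    rw [Real.rpow_sub hN0, div_le_iff₀ (Real.rpow_pos_of_pos hN0 _)]
    have := (div_le_iff₀ (by positivity)).mp h3
    calc N ^ (3 - 2 * α) ≤ 4 * (C * N ^ e) * S ^ 2 * (8192 * Lg) := this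
      _ = _ := by ring
  have h5 : N ^ (2 * E) ≤ 32768 * C * Lg * S ^ 2 :=
    (Real.rpow_le_rpow_of_exponent_le hN hE).trans h4
  have h6 : (N ^ E) ^ 2 = N ^ (2 * E) := by
    rw [two_mul, Real.rpow_add hN0, sq]
  have h7 : (c * N ^ E / Lg) ^ 2 ≤ S ^ 2 := by
    rw [div_pow, mul_pow, h6, div_le_iff₀ (by positivity)]
    calc c ^ 2 * N ^ (2 * E) ≤ c ^ 2 * (32768 * C * Lg * S ^ 2) := by gcongr
      _ = c ^ 2 * (32768 * C) * (Lg * S ^ 2) := by ring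
      _ ≤ 1 * (Lg * S ^ 2) := by gcongr
      _ = Lg * S ^ 2 := one_mul _
      _ ≤ Lg ^ 2 * S ^ 2 := by
          apply mul_le_mul_of_nonneg_right _ (sq_nonneg S)
          nlinarith
      _ = S ^ 2 * Lg ^ 2 := by ring
  exact le_of_sq_le_sq h7 hS

/-- Branch 3. -/
theorem branch3 {N α E e S K1 Lg δ C : ℝ} (hN : 1 ≤ N) (hLg : 1 ≤ Lg) (hC : 1 ≤ C)
    (hS : 0 ≤ S)
    (hE : E ≤ 2 - 2 * α - e) (hδ : δ ≤ C * Lg * N ^ e)
    (hK1 : N ^ (1 - α) / 8 ≤ K1)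
    (h : K1 * K1 ≤ 4 * δ * S) {c : ℝ} (hc0 : 0 ≤ c) (hc : c * (256 * C) ≤ 1) :
    c * N ^ E / Lg ≤ S := by
  have hN0 : (0 : ℝ) < N := by linarith
  have hL0 : 0 < N ^ (1 - α) / 8 := by positivity
  have hK10 : 0 ≤ K1 := hL0.le.trans hK1
  have h1 : (N ^ (1 - α) / 8) * (N ^ (1 - α) / 8) ≤ K1 * K1 := by gcongr
  have h2 : (N ^ (1 - α) / 8) * (N ^ (1 - α) / 8) = N ^ (2 - 2 * α) / 64 := by
    have : N ^ (2 - 2 * α) = N ^ (1 - α) * N ^ (1 - α) := by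
      rw [← Real.rpow_add hN0]
      congr 1
      ring
    rw [this]
    ring
  have h3 : N ^ (2 - 2 * α) / 64 ≤ 4 * (C * Lg * N ^ e) * S := by
    rw [← h2]
    refine h1.trans (h.trans ?_)
    gcongr
  have h4 : N ^ (2 - 2 * α - e) ≤ 256 * C * Lg * S := by
    rw [Real.rpow_sub hN0, div_le_iff₀ (Real.rpow_pos_of_pos hN0 _)]
    calc N ^ (2 - 2 * α) ≤ 4 * (C * Lg * N ^ e) * S * 64 := by linarith
      _ = _ := by ring
  have h5 : N ^ E ≤ 256 * C * Lg * S :=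
    (Real.rpow_le_rpow_of_exponent_le hN hE).trans h4
  rw [div_le_iff₀ (by linarith)]
  calc c * N ^ E ≤ c * (256 * C * Lg * S) := by gcongr
    _ = c * (256 * C) * (Lg * S) := by ring
    _ ≤ 1 * (Lg * S) := by gcongr
    _ = S * Lg := by ring

end Pool.Agent.helper79.Cov
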