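import Pool.Agent.helper79.Cov6

open Finset Real

namespace Pool.Agent.helper79.Cov

/-- The optimal size exponent of the coefficients. -/
noncomputable def omg (α : ℝ) (m : ℕ) : ℝ := max 0 (1 - 2 * α + α / m)

theorem omg_nonneg (α : ℝ) (m : ℕ) : 0 ≤ omg α m := le_max_left _ _

theorem omg_ge (α : ℝ) (m : ℕ) : 1 - 2 * α + α / m ≤ omg α m := le_max_right _ _

theorem omg_le {α : ℝ} {m : ℕ} (h0 : 0 < α) (h1 : α < 1) (hm : 1 ≤ m) : omg α m ≤ 1 - α := by
  have hmR : (1 : ℝ) ≤ m := by exact_mod_cast hm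
  unfold omg
  apply max_le (by linarith)
  have : α / m ≤ α := div_le_self h0.le hmR
  linarith

theorem etau_nonneg {α : ℝ} {m : ℕ} (h0 : 1 / 2 < α) (h1 : α < 1) (hm : 1 ≤ m) :
    0 ≤ (omg α m + 1 - α) / m - omg α m := by
  have hmR : (1 : ℝ) ≤ m := by exact_mod_cast hm
  have hm0 : (0 : ℝ) < m := by linarith
  rw [sub_nonneg, le_div_iff₀ hm0]
  -- `ω m ≤ ω + 1 - α`
  rcases le_total (1 - 2 * α + α / m) 0 with h | h
  · have : omg α m = 0 := max_eq_left h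
    rw [this]
    linarith
  · have e : omg α m = 1 - 2 * α + α / m := max_eq_right h
    rw [e]
    have e2 : α / m * m = α := by field_simp
    rcases Nat.lt_or_ge m 2 with h2 | h2
    · have : m = 1 := by omega
      subst this
      push_cast
      linarith
    · have h2R : (2 : ℝ) ≤ m := by exact_mod_cast h2
      have e3 : 0 ≤ α / m := by positivity
      nlinarith [mul_nonneg (sub_nonneg.mpr h2R) (by linarith : (0 : ℝ) ≤ 2 * α - 1)]

theorem star_bound (α : ℝ) (h0 : 1 / 2 < α) (h1 : α < 1) (m : ℕ) (hm : 1 ≤ m) :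
    ∃ c : ℝ, 0 < c ∧ ∃ N₀ : ℕ, ∀ N : ℕ, N₀ ≤ N → ∀ a : ℕ → ℕ, ∀ Ps : Finset ℕ,
      (∀ p ∈ Ps, p.Prime ∧ (N : ℝ) ^ α ≤ p ∧ (p : ℝ) < 2 * (N : ℝ) ^ α) →
      (N : ℝ) ^ α / (16 * Real.log N) ≤ Ps.card →
      c * (N : ℝ) ^ (2 - 2 * α - (omg α m + 1 - 2 * α) / (2 * m)) / Real.log N ≤
        (cov N a Ps).card := by
  have hmR : (1 : ℝ) ≤ m := by exact_mod_cast hm
  have hm0 : (0 : ℝ) < m := by linarith
  have hα0 : 0 < α := by linarith
  have hω0 := omg_nonneg α m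
  have hω1 := omg_ge α m
  have hω2 := omg_le hα0 h1 hm
  have heτ := etau_nonneg h0 h1 hm
  set ω := omg α m with hω
  set A : ℝ := 2 ^ m * m.factorial with hA
  have hfR : (1 : ℝ) ≤ m.factorial := by
    exact_mod_cast Nat.one_le_iff_ne_zero.mpr (Nat.factorial_ne_zero m)
  have hA1 : 1 ≤ A := one_le_mul_of_one_le_of_one_le (one_le_pow₀ (by norm_num)) hfR
  set C2 : ℝ := 14 * m * m.factorial with hC2
  set C3 : ℝ := 384 * m ^ 2 * A ^ 2 with hC3
  have hC21 : 1 ≤ C2 := by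
    have : (1 : ℝ) ≤ m * m.factorial := one_le_mul_of_one_le_of_one_le hmR hfR
    rw [hC2]; nlinarith
  have hC31 : 1 ≤ C3 := by
    have e1 : (1 : ℝ) ≤ m ^ 2 := one_le_pow₀ hmR
    have e2 : (1 : ℝ) ≤ A ^ 2 := one_le_pow₀ hA1
    have e3 : (1 : ℝ) ≤ m ^ 2 * A ^ 2 := one_le_mul_of_one_le_of_one_le e1 e2
    rw [hC3]; nlinarith
  set c : ℝ := min (1 / 256) (min (1 / (32768 * C2)) (1 / (256 * C3))) with hc
  have hc0 : 0 < c := by
    rw [hc]
    refine lt_min (by norm_num) (lt_min ?_ ?_)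
    · positivity
    · positivity
  have hc1 : c ≤ 1 / 256 := min_le_left _ _
  have hc2 : c ≤ 1 / (32768 * C2) := (min_le_right _ _).trans (min_le_left _ _)
  have hc3 : c ≤ 1 / (256 * C3) := (min_le_right _ _).trans (min_le_right _ _)
  have hc2' : c ^ 2 * (32768 * C2) ≤ 1 := by
    have h2 : c ^ 2 ≤ c := by nlinarith
    have h3 : c * (32768 * C2) ≤ 1 := by
      have := (le_div_iff₀ (by positivity : (0 : ℝ) < 32768 * C2)).mp hc2
      exact this
    exact (mul_le_mul_of_nonneg_right h2 (by positivity)).trans h3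
  have hc3' : c * (256 * C3) ≤ 1 :=
    (le_div_iff₀ (by positivity : (0 : ℝ) < 256 * C3)).mp hc3
  have ev1 : ∀ᶠ N : ℕ in Filter.atTop, (16 : ℝ) ≤ (N : ℝ) ^ (1 - α) :=
    ((tendsto_rpow_atTop (by linarith : 0 < 1 - α)).comp
      tendsto_natCast_atTop_atTop).eventually_ge_atTop 16
  have ev2 : ∀ᶠ N : ℕ in Filter.atTop, ((m * 4 ^ m : ℕ) : ℝ) < (N : ℝ) ^ α :=
    ((tendsto_rpow_atTop hα0).comp tendsto_natCast_atTop_atTop).eventually_gt_atTop _
  have ev3 : ∀ᶠ N : ℕ in Filter.atTop, (2 : ℝ) < (N : ℝ) ^ (2 * α - 1) :=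
    ((tendsto_rpow_atTop (by linarith : 0 < 2 * α - 1)).comp
      tendsto_natCast_atTop_atTop).eventually_gt_atTop 2
  have ev4 : ∀ᶠ N : ℕ in Filter.atTop, 3 ≤ N := Filter.eventually_ge_atTop 3
  obtain ⟨N₀, hN₀⟩ := Filter.eventually_atTop.mp (ev1.and (ev2.and (ev3.and ev4)))
  refine ⟨c, hc0, N₀, ?_⟩
  intro N hN a Ps hPs hcard
  obtain ⟨hL, hX, h2, h3⟩ := hN₀ N hN
  have hN3 : (3 : ℝ) ≤ N := by exact_mod_cast h3
  have hN1 : (1 : ℝ) ≤ N := by linarith
  have hNpos : (0 : ℝ) < N := by linarith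
  have hlog : 1 ≤ Real.log N := by
    rw [Real.le_log_iff_exp_le hNpos]
    have := Real.exp_one_lt_d9
    linarith
  set X : ℝ := (N : ℝ) ^ α with hXdef
  set P : ℕ := ⌈X⌉₊ with hP
  have hX1 : 1 ≤ X := Real.one_le_rpow hN1 hα0.le
  have hPX : X ≤ P := Nat.le_ceil X
  have hPX2 : (P : ℝ) ≤ 2 * X := by
    have := Nat.ceil_lt_add_one (by linarith : 0 ≤ X)
    rw [← hP] at this
    linarith
  have hPpos : (0 : ℝ) < P := by linarith
  have hPpos' : 0 < P := by exact_mod_cast hPpos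
  set h : ℕ := ⌈(N : ℝ) ^ ω⌉₊ with hh
  have hω3 : (N : ℝ) ^ ω ≤ h := Nat.le_ceil _
  have hω4 : (1 : ℝ) ≤ (N : ℝ) ^ ω := Real.one_le_rpow hN1 hω0
  have hω5 : (h : ℝ) < (N : ℝ) ^ ω + 1 := Nat.ceil_lt_add_one (by linarith)
  have hω6 : (h : ℝ) ≤ 2 * (N : ℝ) ^ ω := by linarith
  have hh1 : 1 ≤ h := by
    have : (1 : ℝ) ≤ h := hω4.trans hω3
    exact_mod_cast this
  have hXL : X * (N : ℝ) ^ (1 - α) = N := by
    rw [hXdef, ← Real.rpow_add hNpos]
    simp
  have hhP : h < P := by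
    have e1 : (N : ℝ) ^ ω ≤ (N : ℝ) ^ (1 - α) := Real.rpow_le_rpow_of_exponent_le hN1 hω2
    have e2 : (N : ℝ) ^ (2 * α - 1) * (N : ℝ) ^ (1 - α) = X := by
      rw [hXdef, ← Real.rpow_add hNpos]
      congr 1
      ring
    have e3 : (h : ℝ) < P := by
      calc (h : ℝ) ≤ 2 * (N : ℝ) ^ ω := hω6
        _ ≤ 2 * (N : ℝ) ^ (1 - α) := by linarith
        _ < (N : ℝ) ^ (2 * α - 1) * (N : ℝ) ^ (1 - α) := by
            apply mul_lt_mul_of_pos_right h2
            linarith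
        _ = X := e2
        _ ≤ P := hPX
    exact_mod_cast e3
  set K : ℕ := N / P with hK
  have hKle : (K : ℝ) ≤ (N : ℝ) ^ (1 - α) := by
    have e1 : (K : ℝ) ≤ N / P := Nat.cast_div_le
    have e2 : (N : ℝ) / P ≤ N / X := by gcongr
    have e3 : (N : ℝ) / X = (N : ℝ) ^ (1 - α) := by
      rw [div_eq_iff (by positivity), mul_comm, hXL]
    linarith
  have hNX : (N : ℝ) ^ (1 - α) / 4 ≤ N / (2 * P) := by
    rw [le_div_iff₀ (by positivity)]
    calc (N : ℝ) ^ (1 - α) / 4 * (2 * P) ≤ (N : ℝ) ^ (1 - α) / 4 * (2 * (2 * X)) := by gcongr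
      _ = X * (N : ℝ) ^ (1 - α) := by ring
      _ = N := hXL
  have hfl : (N : ℝ) / (2 * P) < (N / (2 * P) : ℕ) + 1 := by
    have := Nat.lt_floor_add_one ((N : ℝ) / ((2 * P : ℕ) : ℝ))
    rw [Nat.floor_div_eq_div] at this
    push_cast at this
    exact this
  have hdiv2 : 2 ≤ N / (2 * P) := by
    have e1 : (3 : ℝ) < ((N / (2 * P) : ℕ) : ℝ) + 1 := by linarith
    have e2 : (2 : ℝ) < ((N / (2 * P) : ℕ) : ℝ) := by linarith
    have e3 : 2 < N / (2 * P) := by exact_mod_cast e2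
    omega
  have hK1' : 1 ≤ K := by
    have e1 : N / (2 * P) ≤ N / P := Nat.div_le_div_left (by omega) hPpos'
    omega
  set K1 : ℕ := N / (2 * P) - 1 with hK1
  have hK1R : (N : ℝ) ^ (1 - α) / 8 ≤ (K1 : ℝ) := by
    have e1 : ((N / (2 * P) : ℕ) : ℝ) = (K1 : ℝ) + 1 := by
      have : N / (2 * P) = K1 + 1 := by omega
      rw [this]
      push_cast
      ring
    linarith
  have hPs' : ∀ x ∈ Ps, x.Prime ∧ P ≤ x ∧ x ≤ 2 * P := by
    intro x hx
    obtain ⟨e1, e2, e3⟩ := hPs x hx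
    refine ⟨e1, Nat.ceil_le.mpr e2, ?_⟩
    have : (x : ℝ) < 2 * P := by linarith
    have : x < 2 * P := by exact_mod_cast this
    exact this.le
  have hn1 : 1 ≤ Ps.card := by
    have : (0 : ℝ) < Ps.card := lt_of_lt_of_le (by positivity) hcard
    exact_mod_cast this
  have hD := dichotomy (N := N) (P := P) (m := m) (h := h) (K := K) (K1 := K1) (a := a) (Ps := Ps)
    (A := A) (τ := 2 * m + (2 / h) * (6 * m * m.factorial * (h * K)) ^ (1 / m : ℝ))
    (δ := (12 * m ^ 2 * A ^ 2 * (h * K) / Ps.card) ^ (1 / (2 * m : ℕ) : ℝ)) hm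
    (by
      have : ((m * 4 ^ m : ℕ) : ℝ) < P := lt_of_lt_of_le hX hPX
      exact_mod_cast this) hhP hh1 hPs'
    (by
      have := Nat.div_add_mod N P
      have h5 := Nat.mod_lt N hPpos'
      rw [← hK] at this
      calc N = P * K + N % P := this.symm
        _ < P * K + P := by omega
        _ = (K + 1) * P := by ring)
    (by
      have e1 : (N : ℝ) ≤ (P : ℝ) ^ 2 := by
        calc (N : ℝ) = (N : ℝ) ^ (1 : ℝ) := (Real.rpow_one _).symm
          _ ≤ (N : ℝ) ^ (α + α) := Real.rpow_le_rpow_of_exponent_le hN1 (by linarith)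
          _ = X * X := by rw [Real.rpow_add hNpos]
          _ ≤ P * P := by gcongr
          _ = (P : ℝ) ^ 2 := by ring
      exact_mod_cast e1)
    (by
      intro p hp
      obtain ⟨e1, e2, e3⟩ := hPs' p hp
      have e4 : N / (2 * P) ≤ N / p := Nat.div_le_div_left e3 e1.pos
      have e5 := card_cls_ge (N := N) (a := a) e1.pos
      omega)
    (by linarith) (by positivity) (by positivity)
    (fun T hT => tau_cond hm hh1 hK1' hT)
    (delta_cond hm hh1 hK1' hn1)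
  have hτle := tau_le (N := N) (α := α) (ω := ω) hm hN1 hω3 hKle heτ
  have hδle := delta_le (N := N) (α := α) (ω := ω) (A := A) hm hN3 hh1 hK1' hω6 hKle hA1 hcard
  have hE1 : 2 - 2 * α - (ω + 1 - 2 * α) / (2 * m) ≤ 1 := by
    have e1 : (1 - 2 * α) / 2 ≤ (ω + 1 - 2 * α) / (2 * m) := by
      rw [div_le_div_iff₀ (by norm_num) (by positivity)]
      nlinarith [mul_nonneg (sub_nonneg.mpr hmR) (by linarith : (0 : ℝ) ≤ 2 * α - 1)]
    linarith
  have hE2 : 2 * (2 - 2 * α - (ω + 1 - 2 * α) / (2 * m)) ≤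
      3 - 2 * α - ((ω + 1 - α) / m - ω) := by
    have e1 : (ω + 1 - α) / m = 2 * ((ω + 1 - 2 * α) / (2 * m)) + α / m := by
      field_simp
      ring
    rw [e1]
    linarith
  have hS0 : (0 : ℝ) ≤ ((cov N a Ps).card : ℝ) := Nat.cast_nonneg _
  rcases hD with hb | hb | hb
  · have := branch1 hN1 hlog hE1 hcard hK1R hb
    refine le_trans ?_ this
    gcongr
  · exact branch2 hN1 hlog hC21 hS0 hE2 hτle hcard hK1R hb hc0.le hc2'
  · exact branch3 hN1 hlog hC31 hS0 le_rfl hδle hK1R hb hc0.le hc3'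

end Pool.Agent.helper79.Cov
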